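import Mathlib
import Pool.Agent.H95.Cop.Renewal

/-!
# Decomposition of the copolymer partition function at the first long excursion below the interface
-/

open MeasureTheory ProbabilityTheory Filter Topology
open scoped ENNReal

namespace Pool.Agent.H96.Cop

open Pool.Agent.H95 Pool.Agent.H95.Cop

/-- exponential of the total charge between two sites -/
noncomputable def ex (a b : ℕ) (x : ℕ → ℝ) : ℝ≥0∞ := ENNReal.ofReal (Real.exp (H x a b))

/-- inter-arrival probabilities -/
noncomputable def pk (K : PMF ℕ) (n : ℕ) : ℝ≥0∞ := ENNReal.ofReal (kk K n)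

/-- partition function -/
noncomputable def Wn (K : PMF ℕ) (N : ℕ) (x : ℕ → ℝ) : ℝ≥0∞ := ENNReal.ofReal (W K N x)

/-- weights: excursions longer than `k` must be above the interface -/
noncomputable def wt (K : PMF ℕ) (k n : ℕ) (x : ℕ → ℝ) : ℝ≥0∞ :=
  if n ≤ k then pk K n * (2⁻¹ * (1 + ex 0 n x)) else pk K n * 2⁻¹

/-- constrained partition function without long excursions below the interface -/
noncomputable def AA (K : PMF ℕ) (k : ℕ) : ℕ → (ℕ → ℝ) → ℝ≥0∞
  | 0, _ => 1
  | (s + 1), x => ∑ j : Fin (s + 1), wt K k (j + 1) x * AA K k (s - j) (shift (j + 1) x)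

lemma AA_zero (K : PMF ℕ) (k : ℕ) (x : ℕ → ℝ) : AA K k 0 x = 1 := by rw [AA]

lemma AA_succ (K : PMF ℕ) (k s : ℕ) (x : ℕ → ℝ) : AA K k (s + 1) x =
    ∑ j ∈ Finset.range (s + 1), wt K k (j + 1) x * AA K k (s - j) (shift (j + 1) x) := by
  rw [AA, Finset.sum_range]

/-- remaining part -/
noncomputable def RR (K : PMF ℕ) (k N : ℕ) (x : ℕ → ℝ) : ℝ≥0∞ :=
  ∑ n ∈ Finset.Ico (k + 1) N, pk K n * 2⁻¹ * ex 0 n x * Wn K (N - n) (shift n x) +
    (1 + ex 0 N x)

lemma H_shift (x : ℕ → ℝ) (s a b : ℕ) : H (shift s x) a b = H x (a + s) (b + s) := by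
  unfold H
  simp only [shift_apply]
  rw [Finset.sum_Ico_add' (fun i => x i) a b s]

lemma ex_shift (x : ℕ → ℝ) (s a b : ℕ) : ex a b (shift s x) = ex (a + s) (b + s) x := by
  unfold ex
  rw [H_shift]

lemma ex_mul (x : ℕ → ℝ) {a b c : ℕ} (hab : a ≤ b) (hbc : b ≤ c) :
    ex a b x * ex b c x = ex a c x := by
  unfold ex
  rw [← ENNReal.ofReal_mul (Real.exp_pos _).le, ← Real.exp_add]
  unfold H
  rw [Finset.sum_Ico_consecutive _ hab hbc]

lemma pk_zero (K : PMF ℕ) (hK0 : K 0 = 0) : pk K 0 = 0 := by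
  unfold pk
  rw [kk_zero K hK0, ENNReal.ofReal_zero]

lemma Wn_rec (K : PMF ℕ) (hK0 : K 0 = 0) (N : ℕ) (x : ℕ → ℝ) :
    Wn K N x ≤ ∑ n ∈ Finset.range N, pk K n * (2⁻¹ * (1 + ex 0 n x)) * Wn K (N - n) (shift n x) +
      (1 + ex 0 N x) := by
  have hterm : ∀ n, ENNReal.ofReal (kk K n * ((1 + Real.exp (H x 0 n)) / 2) *
      W K (N - n) (shift n x)) =
      pk K n * (2⁻¹ * (1 + ex 0 n x)) * Wn K (N - n) (shift n x) := by
    intro n
    have h1 := kk_nonneg K n
    have h2 := W_pos K (N - n) (shift n x)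
    have h3 := Real.exp_pos (H x 0 n)
    rw [ENNReal.ofReal_mul (by positivity), ENNReal.ofReal_mul h1]
    unfold pk Wn ex
    congr 2
    rw [div_eq_inv_mul, ENNReal.ofReal_mul (by norm_num), ENNReal.ofReal_add (by norm_num) h3.le,
      ENNReal.ofReal_one, ENNReal.ofReal_inv_of_pos (by norm_num)]
    norm_num
  have hlast : ENNReal.ofReal (tailK K N * ((1 + Real.exp (H x 0 N)) / 2)) ≤ 1 + ex 0 N x := by
    have h3 := Real.exp_pos (H x 0 N)
    have h4 : tailK K N * ((1 + Real.exp (H x 0 N)) / 2) ≤ 1 + Real.exp (H x 0 N) := by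
      have := tailK_le_one K N
      have := tailK_nonneg K N
      nlinarith
    refine (ENNReal.ofReal_le_ofReal h4).trans (le_of_eq ?_)
    rw [ENNReal.ofReal_add (by norm_num) h3.le, ENNReal.ofReal_one]
    rfl
  unfold Wn at *
  conv_lhs => rw [W_sum K hK0 N x]
  rw [ENNReal.ofReal_add, ENNReal.ofReal_sum_of_nonneg]
  · refine add_le_add (le_of_eq (Finset.sum_congr rfl (fun n _ => ?_))) hlast
    exact hterm n
  · intro n _
    have h1 := kk_nonneg K n
    have h2 := W_pos K (N - n) (shift n x)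
    have h3 := Real.exp_pos (H x 0 n)
    positivity
  · apply Finset.sum_nonneg
    intro n _
    have h1 := kk_nonneg K n
    have h2 := W_pos K (N - n) (shift n x)
    have h3 := Real.exp_pos (H x 0 n)
    positivity
  · have h1 := tailK_nonneg K N
    have h3 := Real.exp_pos (H x 0 N)
    positivity

lemma Wn_rec2 (K : PMF ℕ) (hK0 : K 0 = 0) (k N : ℕ) (x : ℕ → ℝ) :
    Wn K N x ≤ ∑ n ∈ Finset.range N, wt K k n x * Wn K (N - n) (shift n x) + RR K k N x := by
  refine (Wn_rec K hK0 N x).trans ?_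
  unfold RR
  refine le_trans (add_le_add ?_ le_rfl) (le_of_eq (add_assoc _ _ _))
  have h1 : ∀ n ∈ Finset.range N, pk K n * (2⁻¹ * (1 + ex 0 n x)) * Wn K (N - n) (shift n x) =
      wt K k n x * Wn K (N - n) (shift n x) +
      (if k < n then pk K n * 2⁻¹ * ex 0 n x * Wn K (N - n) (shift n x) else 0) := by
    intro n _
    unfold wt
    by_cases h : n ≤ k
    · rw [if_pos h, if_neg (by omega), add_zero]
    · rw [if_neg h, if_pos (by omega)]
      ring
  rw [Finset.sum_congr rfl h1, Finset.sum_add_distrib]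
  refine add_le_add le_rfl ?_
  rw [← Finset.sum_filter]
  apply Finset.sum_le_sum_of_subset
  intro n hn
  rw [Finset.mem_filter, Finset.mem_range] at hn
  rw [Finset.mem_Ico]
  omega

lemma sum_tri (M : ℕ) (f : ℕ → ℕ → ℝ≥0∞) :
    ∑ j ∈ Finset.range M, ∑ t ∈ Finset.range (M - j), f j t =
    ∑ s ∈ Finset.range M, ∑ j ∈ Finset.range (s + 1), f j (s - j) := by
  have h1 : ∑ s ∈ Finset.range M, ∑ j ∈ Finset.range (s + 1), f j (s - j) =
      ∑ j ∈ Finset.range M, ∑ s ∈ Finset.Ico j M, f j (s - j) := by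
    apply Finset.sum_comm'
    intro s j
    simp only [Finset.mem_range, Finset.mem_Ico]
    omega
  rw [h1]
  apply Finset.sum_congr rfl
  intro j _
  rw [Finset.sum_Ico_eq_sum_range]
  apply Finset.sum_congr rfl
  intro t _
  congr 1
  omega

lemma dec (K : PMF ℕ) (hK0 : K 0 = 0) (k : ℕ) : ∀ M : ℕ, ∀ x : ℕ → ℝ,
    Wn K (M + 1) x ≤ ∑ s ∈ Finset.range (M + 1), AA K k s x * RR K k (M + 1 - s) (shift s x) := by
  intro M
  induction M using Nat.strong_induction_on with
  | _ M ih =>
    intro x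
    refine (Wn_rec2 K hK0 k (M + 1) x).trans ?_
    rw [Finset.sum_range_succ', Finset.sum_range_succ']
    have h0 : wt K k 0 x = 0 := by
      unfold wt
      rw [if_pos (Nat.zero_le k), pk_zero K hK0, zero_mul]
    rw [h0, zero_mul, add_zero, AA_zero, one_mul, shift_zero]
    refine add_le_add ?_ le_rfl
    have h1 : ∀ j ∈ Finset.range M, wt K k (j + 1) x * Wn K (M + 1 - (j + 1)) (shift (j + 1) x) ≤
        ∑ t ∈ Finset.range (M - j), wt K k (j + 1) x * AA K k t (shift (j + 1) x) *
          RR K k (M - (j + t)) (shift (j + t + 1) x) := by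
      intro j hj
      rw [Finset.mem_range] at hj
      have e1 : M + 1 - (j + 1) = (M - j - 1) + 1 := by omega
      have h2 := ih (M - j - 1) (by omega) (shift (j + 1) x)
      rw [e1]
      have e2 : M - j - 1 + 1 = M - j := by omega
      rw [e2] at h2 ⊢
      refine (mul_le_mul_right h2 _).trans (le_of_eq ?_)
      rw [Finset.mul_sum]
      apply Finset.sum_congr rfl
      intro t ht
      rw [Finset.mem_range] at ht
      rw [shift_shift, ← mul_assoc]
      congr 2
      · omega
      · congr 1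
        omega
    refine (Finset.sum_le_sum h1).trans (le_of_eq ?_)
    rw [sum_tri M (fun j t => wt K k (j + 1) x * AA K k t (shift (j + 1) x) *
          RR K k (M - (j + t)) (shift (j + t + 1) x))]
    apply Finset.sum_congr rfl
    intro s _
    rw [AA_succ, Finset.sum_mul]
    apply Finset.sum_congr rfl
    intro j hj
    rw [Finset.mem_range] at hj
    have e1 : j + (s - j) = s := by omega
    have e2 : M + 1 - (s + 1) = M - s := by omega
    rw [e1, e2]

end Pool.Agent.H96.Cop
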