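import Mathlib
import Pool.Agent.H96.Cop.Dec

/-!
# Coarse graining on cells of length `k`
-/

open MeasureTheory ProbabilityTheory Filter Topology
open scoped ENNReal

namespace Pool.Agent.H96.Cop

open Pool.Agent.H95 Pool.Agent.H95.Cop

/-- partition function entering the first cell -/
noncomputable def Psi (K : PMF ℕ) (k n : ℕ) (x : ℕ → ℝ) : ℝ≥0∞ :=
  ∑ e ∈ Finset.range k, ex 0 e x * Wn K (n * k - e) (shift e x)

/-- stretch from cell `0` to cell `a` without long excursions below the interface -/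
noncomputable def Phi (K : PMF ℕ) (k a : ℕ) (x : ℕ → ℝ) : ℝ≥0∞ :=
  ∑ e ∈ Finset.range k, ∑ r ∈ Finset.range k, (if e ≤ a * k + r then
    ex 0 e x * AA K k (a * k + r - e) (shift e x) * ex (a * k + r) ((a + 1) * k) x else 0)

/-- the same without the last factor -/
noncomputable def Phi' (K : PMF ℕ) (k a : ℕ) (x : ℕ → ℝ) : ℝ≥0∞ :=
  ∑ e ∈ Finset.range k, ∑ r ∈ Finset.range k, (if e ≤ a * k + r then
    ex 0 e x * AA K k (a * k + r - e) (shift e x) else 0)

lemma sum_cells (k n : ℕ) (f : ℕ → ℝ≥0∞) :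
    ∑ s ∈ Finset.range (n * k), f s =
      ∑ a ∈ Finset.range n, ∑ r ∈ Finset.range k, f (a * k + r) := by
  induction n with
  | zero => simp
  | succ n ih =>
    rw [Finset.sum_range_succ, ← ih, add_mul, one_mul, Finset.sum_range_add]

lemma sum_cells_Ico (k : ℕ) (a n : ℕ) (f : ℕ → ℝ≥0∞) :
    ∑ s ∈ Finset.Ico (a * k) (n * k), f s =
      ∑ b ∈ Finset.Ico a n, ∑ r ∈ Finset.range k, f (b * k + r) := by
  rw [Finset.sum_Ico_eq_sum_range, Finset.sum_Ico_eq_sum_range, ← Nat.sub_mul, sum_cells]
  apply Finset.sum_congr rfl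
  intro b _
  apply Finset.sum_congr rfl
  intro r _
  congr 1
  ring

/-- bound of the remaining part from a site `s = a k + r` of the cell `a`. -/
lemma RR_le (K : PMF ℕ) (k : ℕ) (hk : 1 ≤ k) (G : ℕ → ℝ≥0∞)
    (hG : ∀ j m : ℕ, 1 ≤ j → k < m → (j - 1) * k < m → pk K m * 2⁻¹ ≤ G j)
    (n a r : ℕ) (han : a < n) (hr : r < k) (x : ℕ → ℝ) :
    RR K k (n * k - (a * k + r)) (shift (a * k + r) x) ≤
      ex (a * k + r) ((a + 1) * k) x * (∑ b ∈ Finset.Ico (a + 1) n, G (b - a) *
        ex ((a + 1) * k) (b * k) x * Psi K k (n - b) (shift (b * k) x) +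
        ex ((a + 1) * k) (n * k) x) + 1 := by
  set s := a * k + r with hs
  have hs1 : s < (a + 1) * k := by rw [hs, add_mul, one_mul]; omega
  have han' : (a + 1) * k ≤ n * k := Nat.mul_le_mul_right k han
  unfold RR
  rw [ex_shift, zero_add]
  have e1 : n * k - s + s = n * k := by omega
  rw [e1, ← ex_mul x hs1.le han', mul_add, add_comm (1:ℝ≥0∞), ← add_assoc]
  refine add_le_add (add_le_add ?_ le_rfl) le_rfl
  -- the sum over the position of the end of the long excursion
  have h1 : ∀ m ∈ Finset.Ico (k + 1) (n * k - s), pk K m * 2⁻¹ * ex 0 m (shift s x) *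
      Wn K (n * k - s - m) (shift m (shift s x)) =
      (fun u => pk K (u - s) * 2⁻¹ * ex s u x * Wn K (n * k - u) (shift u x)) (m + s) := by
    intro m hm
    rw [Finset.mem_Ico] at hm
    simp only
    rw [ex_shift, shift_shift, zero_add, Nat.add_sub_cancel]
    congr 2
    omega
  rw [Finset.sum_congr rfl h1, Finset.sum_Ico_add' (fun u => pk K (u - s) * 2⁻¹ * ex s u x *
    Wn K (n * k - u) (shift u x)) (k + 1) (n * k - s) s, e1]
  have h2 : ∑ u ∈ Finset.Ico (k + 1 + s) (n * k), pk K (u - s) * 2⁻¹ * ex s u x *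
      Wn K (n * k - u) (shift u x) ≤ ∑ u ∈ Finset.Ico ((a + 1) * k) (n * k),
      (if s + k < u then pk K (u - s) * 2⁻¹ * ex s u x * Wn K (n * k - u) (shift u x) else 0) := by
    rw [← Finset.sum_filter]
    apply Finset.sum_le_sum_of_subset
    intro u hu
    rw [Finset.mem_Ico] at hu
    rw [Finset.mem_filter, Finset.mem_Ico]
    have : (a + 1) * k = a * k + k := by ring
    omega
  refine h2.trans ?_
  rw [sum_cells_Ico k, Finset.mul_sum]
  apply Finset.sum_le_sum
  intro b hb
  rw [Finset.mem_Ico] at hb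
  unfold Psi
  rw [← mul_assoc, Finset.mul_sum]
  apply Finset.sum_le_sum
  intro e he
  rw [Finset.mem_range] at he
  have hb1 : (a + 1) * k ≤ b * k := Nat.mul_le_mul_right k hb.1
  have hb2 : (b + 1) * k ≤ n * k := Nat.mul_le_mul_right k hb.2
  have hb3 : (b + 1) * k = b * k + k := by ring
  split_ifs with h
  · have hg : pk K (b * k + e - s) * 2⁻¹ ≤ G (b - a) := by
      apply hG (b - a) (b * k + e - s) (by omega) (by omega)
      have e3 : (b - a - 1) * k = b * k - (a + 1) * k := by
        rw [← Nat.sub_mul]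
        congr 1
      omega
    have e4 : ex s (b * k + e) x = ex s ((a + 1) * k) x * ex ((a + 1) * k) (b * k) x *
        ex 0 e (shift (b * k) x) := by
      rw [ex_shift, zero_add, ex_mul x hs1.le hb1, ex_mul x (hs1.le.trans hb1) (by omega)]
      congr 1
      omega
    have e5 : Wn K (n * k - (b * k + e)) (shift (b * k + e) x) =
        Wn K ((n - b) * k - e) (shift e (shift (b * k) x)) := by
      rw [shift_shift, Nat.sub_mul]
      congr 1
      · omega
      · congr 1
        omega
    rw [e4, e5]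
    calc pk K (b * k + e - s) * 2⁻¹ * (ex s ((a + 1) * k) x * ex ((a + 1) * k) (b * k) x *
          ex 0 e (shift (b * k) x)) * Wn K ((n - b) * k - e) (shift e (shift (b * k) x))
        ≤ G (b - a) * (ex s ((a + 1) * k) x * ex ((a + 1) * k) (b * k) x *
          ex 0 e (shift (b * k) x)) * Wn K ((n - b) * k - e) (shift e (shift (b * k) x)) := by
          gcongr
      _ = _ := by ring
  · exact zero_le

lemma coarse (K : PMF ℕ) (hK0 : K 0 = 0) (k : ℕ) (hk : 1 ≤ k) (G : ℕ → ℝ≥0∞)
    (hG : ∀ j m : ℕ, 1 ≤ j → k < m → (j - 1) * k < m → pk K m * 2⁻¹ ≤ G j)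
    (n : ℕ) (hn : 1 ≤ n) (x : ℕ → ℝ) :
    Psi K k n x ≤ ∑ a ∈ Finset.range n, (Phi K k a x * (∑ b ∈ Finset.Ico (a + 1) n, G (b - a) *
        ex ((a + 1) * k) (b * k) x * Psi K k (n - b) (shift (b * k) x) +
        ex ((a + 1) * k) (n * k) x) + Phi' K k a x) := by
  have hnk : k ≤ n * k := by
    calc k = 1 * k := (one_mul k).symm
      _ ≤ n * k := Nat.mul_le_mul_right k hn
  have h1 : ∀ e ∈ Finset.range k, ex 0 e x * Wn K (n * k - e) (shift e x) ≤
      ∑ s ∈ Finset.range (n * k), (if e ≤ s then ex 0 e x * AA K k (s - e) (shift e x) *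
        RR K k (n * k - s) (shift s x) else 0) := by
    intro e he
    rw [Finset.mem_range] at he
    have e1 : n * k - e = (n * k - e - 1) + 1 := by omega
    have h2 := dec K hK0 k (n * k - e - 1) (shift e x)
    rw [← e1] at h2
    refine (mul_le_mul_right h2 _).trans ?_
    rw [Finset.mul_sum]
    have e2 : ∀ t ∈ Finset.range (n * k - e), ex 0 e x * (AA K k t (shift e x) *
        RR K k (n * k - e - t) (shift t (shift e x))) =
        (fun s => ex 0 e x * AA K k (s - e) (shift e x) * RR K k (n * k - s) (shift s x)) (t + e) := by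
      intro t ht
      simp only
      rw [Nat.add_sub_cancel, shift_shift, ← mul_assoc]
      congr 2
      omega
    rw [Finset.sum_congr rfl e2, Finset.range_eq_Ico,
      Finset.sum_Ico_add' (fun s => ex 0 e x * AA K k (s - e) (shift e x) *
        RR K k (n * k - s) (shift s x)) 0 (n * k - e) e, zero_add]
    have e3 : n * k - e + e = n * k := by omega
    rw [e3, ← Finset.sum_filter]
    apply Finset.sum_le_sum_of_subset
    intro s hs
    rw [Finset.mem_Ico] at hs
    rw [Finset.mem_filter, Finset.mem_range]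
    omega
  have hPsi : Psi K k n x = ∑ e ∈ Finset.range k, ex 0 e x * Wn K (n * k - e) (shift e x) := rfl
  rw [hPsi]
  refine (Finset.sum_le_sum h1).trans ?_
  have h3 : ∀ e ∈ Finset.range k, ∑ s ∈ Finset.range (n * k), (if e ≤ s then ex 0 e x *
      AA K k (s - e) (shift e x) * RR K k (n * k - s) (shift s x) else 0) =
      ∑ a ∈ Finset.range n, ∑ r ∈ Finset.range k, (if e ≤ a * k + r then ex 0 e x *
      AA K k (a * k + r - e) (shift e x) * RR K k (n * k - (a * k + r)) (shift (a * k + r) x)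
      else 0) := fun e _ => sum_cells k n _
  rw [Finset.sum_congr rfl h3, Finset.sum_comm]
  apply Finset.sum_le_sum
  intro a ha
  rw [Finset.mem_range] at ha
  unfold Phi Phi'
  rw [Finset.sum_mul, ← Finset.sum_add_distrib]
  apply Finset.sum_le_sum
  intro e _
  rw [Finset.sum_mul, ← Finset.sum_add_distrib]
  apply Finset.sum_le_sum
  intro r hr
  rw [Finset.mem_range] at hr
  split_ifs with h
  · have h4 := RR_le K k hk G hG n a r ha hr x
    refine (mul_le_mul_right h4 _).trans (le_of_eq ?_)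
    ring
  · simp

end Pool.Agent.H96.Cop
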