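import Mathlib
import Pool.Agent.H96.Cop.Coarse

/-!
# Fractional moments of the coarse-grained partition function
-/

open MeasureTheory ProbabilityTheory Filter Topology
open scoped ENNReal

namespace Pool.Agent.H96.Cop

open Pool.Agent.H95 Pool.Agent.H95.Cop

section measurability

lemma measurable_ex (a b : ℕ) : Measurable (ex a b) := by
  unfold ex
  apply ENNReal.measurable_ofReal.comp
  apply Real.measurable_exp.comp
  unfold H
  apply Finset.measurable_sum
  intro i _
  exact measurable_pi_apply i

lemma measurable_Wn (K : PMF ℕ) (N : ℕ) : Measurable (Wn K N) := by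
  unfold Wn
  exact ENNReal.measurable_ofReal.comp (measurable_W K N)

lemma measurable_wt (K : PMF ℕ) (k n : ℕ) : Measurable (wt K k n) := by
  unfold wt
  split_ifs
  · exact (((measurable_ex 0 n).const_add 1).const_mul _).const_mul _
  · exact measurable_const

lemma measurable_AA (K : PMF ℕ) (k s : ℕ) : Measurable (AA K k s) := by
  induction s using Nat.strong_induction_on with
  | _ s ih =>
    cases s with
    | zero =>
      have : AA K k 0 = fun _ => 1 := by funext x; exact AA_zero K k x
      rw [this]; exact measurable_const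
    | succ s =>
      have : AA K k (s + 1) = fun x => ∑ j ∈ Finset.range (s + 1),
          wt K k (j + 1) x * AA K k (s - j) (shift (j + 1) x) := by
        funext x; exact AA_succ K k s x
      rw [this]
      apply Finset.measurable_sum
      intro j _
      exact (measurable_wt K k (j + 1)).mul ((ih (s - j) (by omega)).comp (measurable_shift _))

lemma measurable_Psi (K : PMF ℕ) (k n : ℕ) : Measurable (Psi K k n) := by
  unfold Psi
  apply Finset.measurable_sum
  intro e _
  exact (measurable_ex 0 e).mul ((measurable_Wn K _).comp (measurable_shift _))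

lemma measurable_Phi (K : PMF ℕ) (k a : ℕ) : Measurable (Phi K k a) := by
  unfold Phi
  apply Finset.measurable_sum
  intro e _
  apply Finset.measurable_sum
  intro r _
  split_ifs
  · exact ((measurable_ex 0 e).mul ((measurable_AA K k _).comp (measurable_shift _))).mul
      (measurable_ex _ _)
  · exact measurable_const

lemma measurable_Phi' (K : PMF ℕ) (k a : ℕ) : Measurable (Phi' K k a) := by
  unfold Phi'
  apply Finset.measurable_sum
  intro e _
  apply Finset.measurable_sum
  intro r _
  split_ifs
  · exact (measurable_ex 0 e).mul ((measurable_AA K k _).comp (measurable_shift _))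
  · exact measurable_const

lemma ex_dep (a b : ℕ) : DepLt b (ex a b) := by
  intro x x' h
  unfold ex H
  congr 2
  apply Finset.sum_congr rfl
  intro i hi
  rw [Finset.mem_Ico] at hi
  exact h i hi.2

lemma wt_dep (K : PMF ℕ) (k n : ℕ) : DepLt n (wt K k n) := by
  intro x x' h
  unfold wt
  rw [ex_dep 0 n x x' h]

lemma AA_dep (K : PMF ℕ) (k s : ℕ) : DepLt s (AA K k s) := by
  induction s using Nat.strong_induction_on with
  | _ s ih =>
    intro x x' h
    cases s with
    | zero => rw [AA_zero, AA_zero]
    | succ s =>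
      rw [AA_succ, AA_succ]
      apply Finset.sum_congr rfl
      intro j hj
      rw [Finset.mem_range] at hj
      rw [(wt_dep K k (j + 1)).mono (by omega : j + 1 ≤ s + 1) x x' h]
      congr 1
      apply ih (s - j) (by omega)
      intro i hi
      simp only [shift_apply]
      exact h _ (by omega)

lemma Phi_dep (K : PMF ℕ) (k a : ℕ) : DepLt ((a + 1) * k) (Phi K k a) := by
  intro x x' h
  unfold Phi
  apply Finset.sum_congr rfl
  intro e he
  apply Finset.sum_congr rfl
  intro r hr
  rw [Finset.mem_range] at he hr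
  have hk : (a + 1) * k = a * k + k := by ring
  by_cases hc : e ≤ a * k + r
  · rw [if_pos hc, if_pos hc]
    rw [(ex_dep 0 e).mono (by omega : e ≤ (a + 1) * k) x x' h, ex_dep _ _ x x' h]
    congr 2
    apply AA_dep
    intro i hi
    simp only [shift_apply]
    exact h _ (by omega)
  · rw [if_neg hc, if_neg hc]

end measurability

section moments

variable (ν : Measure ℝ) [IsProbabilityMeasure ν]

/-- independence, `lintegral` form -/
lemma lint_mul_shift {t : ℕ} {f g : (ℕ → ℝ) → ℝ≥0∞} (hf : DepLt t f)
    (hfm : Measurable f) (hgm : Measurable g) :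
    ∫⁻ x, f x * g (shift t x) ∂(iid ν) = (∫⁻ x, f x ∂(iid ν)) * ∫⁻ x, g x ∂(iid ν) := by
  have hmp := measurePreserving_splice ν t
  have h0 : ∫⁻ q, (fun x => f x * g (shift t x)) (splice t q) ∂((iid ν).prod (iid ν)) =
      ∫⁻ x, (fun x => f x * g (shift t x)) x ∂(iid ν) :=
    hmp.lintegral_comp (hfm.mul (hgm.comp (measurable_shift t)))
  simp only at h0
  rw [← h0]
  have h2 : ∀ q : (ℕ → ℝ) × (ℕ → ℝ), f (splice t q) * g (shift t (splice t q)) = f q.1 * g q.2 := by
    intro q
    rw [hf.splice_eq, shift_splice]
  simp only [h2]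
  exact lintegral_prod_mul hfm.aemeasurable hgm.aemeasurable

/-- moments of the exponential of one charge -/
noncomputable def Mo (γ : ℝ) : ℝ≥0∞ := ∫⁻ z, (ENNReal.ofReal (Real.exp z)) ^ γ ∂ν

lemma lint_ex_rpow (γ : ℝ) (hγ : 0 ≤ γ) (n : ℕ) :
    ∫⁻ x, (ex 0 n x) ^ γ ∂(iid ν) = (Mo ν γ) ^ n := by
  induction n with
  | zero =>
    have : ∀ x : ℕ → ℝ, (ex 0 0 x) ^ γ = 1 := by
      intro x; unfold ex H; simp
    simp [this]
  | succ n ih =>
    have h1 : ∀ x : ℕ → ℝ, (ex 0 (n + 1) x) ^ γ =
        (fun x => (ex 0 1 x) ^ γ) x * (fun x => (ex 0 n x) ^ γ) (shift 1 x) := by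
      intro x
      simp only
      rw [← ENNReal.mul_rpow_of_nonneg _ _ hγ, ex_shift, zero_add, ex_mul x (Nat.zero_le 1) (by omega)]
    simp_rw [h1]
    rw [lint_mul_shift ν (f := fun x => (ex 0 1 x) ^ γ) (g := fun x => (ex 0 n x) ^ γ)
      (t := 1) ?_ ?_ ?_, ih, pow_succ, mul_comm]
    · congr 1
      have h2 : ∀ x : ℕ → ℝ, (ex 0 1 x) ^ γ = (fun z => (ENNReal.ofReal (Real.exp z)) ^ γ)
          (Function.eval 0 x) := by
        intro x
        unfold ex H
        simp
      have h3 : ∫⁻ x, (fun z => (ENNReal.ofReal (Real.exp z)) ^ γ) (Function.eval 0 x) ∂(iid ν) =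
          ∫⁻ z, (fun z => (ENNReal.ofReal (Real.exp z)) ^ γ) z ∂ν :=
        (measurePreserving_eval_infinitePi (fun _ : ℕ => ν) 0).lintegral_comp
          ((ENNReal.measurable_ofReal.comp Real.measurable_exp).pow_const γ)
      rw [lintegral_congr h2, h3]
      rfl
    · intro x x' h
      simp only
      rw [ex_dep 0 1 x x' h]
    · exact (measurable_ex 0 1).pow_const γ
    · exact (measurable_ex 0 n).pow_const γ

lemma lint_ex (n : ℕ) : ∫⁻ x, ex 0 n x ∂(iid ν) = (Mo ν 1) ^ n := by
  rw [← lint_ex_rpow ν 1 zero_le_one n]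
  simp

/-- mean weights -/
noncomputable def kh (K : PMF ℕ) (k : ℕ) (B : ℝ≥0∞) (n : ℕ) : ℝ≥0∞ :=
  if n ≤ k then pk K n * (2⁻¹ * (1 + B ^ n)) else pk K n * 2⁻¹

/-- renewal function -/
noncomputable def Un (κ : ℕ → ℝ≥0∞) : ℕ → ℝ≥0∞
  | 0 => 1
  | (s + 1) => ∑ j : Fin (s + 1), κ (j + 1) * Un κ (s - j)

lemma Un_zero (κ : ℕ → ℝ≥0∞) : Un κ 0 = 1 := by rw [Un]

lemma Un_succ (κ : ℕ → ℝ≥0∞) (s : ℕ) :
    Un κ (s + 1) = ∑ j ∈ Finset.range (s + 1), κ (j + 1) * Un κ (s - j) := by
  rw [Un, Finset.sum_range]

lemma lint_wt (K : PMF ℕ) (k : ℕ) (B : ℝ≥0∞) (hB : Mo ν 1 ≤ B) (n : ℕ) :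
    ∫⁻ x, wt K k n x ∂(iid ν) ≤ kh K k B n := by
  unfold wt kh
  split_ifs with h
  · rw [lintegral_const_mul _ (((measurable_ex 0 n).const_add 1).const_mul _),
      lintegral_const_mul _ ((measurable_ex 0 n).const_add 1),
      lintegral_add_left measurable_const, lint_ex]
    simp only [lintegral_const, measure_univ, mul_one]
    gcongr
  · simp

lemma lint_AA (K : PMF ℕ) (k : ℕ) (B : ℝ≥0∞) (hB : Mo ν 1 ≤ B) (s : ℕ) :
    ∫⁻ x, AA K k s x ∂(iid ν) ≤ Un (kh K k B) s := by
  induction s using Nat.strong_induction_on with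
  | _ s ih =>
    cases s with
    | zero => simp [AA_zero, Un_zero]
    | succ s =>
      simp_rw [AA_succ]
      rw [Un_succ, lintegral_finsetSum]
      · apply Finset.sum_le_sum
        intro j hj
        rw [Finset.mem_range] at hj
        rw [lint_mul_shift ν (wt_dep K k (j + 1)) (measurable_wt K k _) (measurable_AA K k _)]
        exact mul_le_mul' (lint_wt ν K k B hB (j + 1)) (ih (s - j) (by omega))
      · intro j _
        exact (measurable_wt K k _).mul ((measurable_AA K k _).comp (measurable_shift _))

/-- mass between cells -/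
noncomputable def Vn (κ : ℕ → ℝ≥0∞) (k a : ℕ) : ℝ≥0∞ :=
  ∑ e ∈ Finset.range k, ∑ r ∈ Finset.range k, (if e ≤ a * k + r then Un κ (a * k + r - e) else 0)

lemma lint_Phi (K : PMF ℕ) (k : ℕ) (B : ℝ≥0∞) (hB1 : 1 ≤ B) (hB : Mo ν 1 ≤ B) (a : ℕ) :
    ∫⁻ x, Phi K k a x ∂(iid ν) ≤ B ^ (2 * k) * Vn (kh K k B) k a := by
  unfold Phi Vn
  rw [lintegral_finsetSum, Finset.mul_sum]
  · apply Finset.sum_le_sum
    intro e he
    rw [lintegral_finsetSum, Finset.mul_sum]
    · apply Finset.sum_le_sum
      intro r hr
      rw [Finset.mem_range] at he hr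
      split_ifs with h
      · have hk : (a + 1) * k = a * k + k := by ring
        have h1 : ∀ x : ℕ → ℝ, ex 0 e x * AA K k (a * k + r - e) (shift e x) *
            ex (a * k + r) ((a + 1) * k) x = ex 0 e x *
            (fun y => AA K k (a * k + r - e) y * (ex 0 ((a + 1) * k - (a * k + r))
              (shift (a * k + r - e) y))) (shift e x) := by
          intro x
          simp only
          rw [mul_assoc, shift_shift, ex_shift, zero_add]
          congr 2
          have e1 : a * k + r - e + e = a * k + r := by omega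
          rw [e1]
          have e2 : (a + 1) * k - (a * k + r) + (a * k + r) = (a + 1) * k := by omega
          rw [e2]
        have hm : Measurable (fun y => AA K k (a * k + r - e) y * (ex 0 ((a + 1) * k - (a * k + r))
              (shift (a * k + r - e) y))) :=
          (measurable_AA K k _).mul ((measurable_ex _ _).comp (measurable_shift _))
        have h5 := lint_mul_shift ν (ex_dep 0 e) (measurable_ex 0 e) hm
        rw [lintegral_congr h1]
        refine le_trans (le_of_eq h5) ?_
        rw [lint_ex, lint_mul_shift ν (AA_dep K k _) (measurable_AA K k _) (measurable_ex _ _), lint_ex]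
        · calc Mo ν 1 ^ e * ((∫⁻ x, AA K k (a * k + r - e) x ∂(iid ν)) *
                Mo ν 1 ^ ((a + 1) * k - (a * k + r)))
              ≤ B ^ k * (Un (kh K k B) (a * k + r - e) * B ^ k) := by
                have h2 := lint_AA ν K k B hB (a * k + r - e)
                have h3 : Mo ν 1 ^ e ≤ B ^ k :=
                  (pow_le_pow_left' hB e).trans (pow_le_pow_right' hB1 he.le)
                have h4 : Mo ν 1 ^ ((a + 1) * k - (a * k + r)) ≤ B ^ k :=
                  (pow_le_pow_left' hB _).trans (pow_le_pow_right' hB1 (by omega))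
                gcongr
            _ = B ^ (2 * k) * Un (kh K k B) (a * k + r - e) := by
                rw [two_mul, pow_add]; ring
      · simp
    · intro r _
      split_ifs
      · exact ((measurable_ex 0 e).mul ((measurable_AA K k _).comp (measurable_shift _))).mul
          (measurable_ex _ _)
      · exact measurable_const
  · intro e _
    apply Finset.measurable_sum
    intro r _
    split_ifs
    · exact ((measurable_ex 0 e).mul ((measurable_AA K k _).comp (measurable_shift _))).mul
        (measurable_ex _ _)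
    · exact measurable_const

lemma lint_Phi' (K : PMF ℕ) (k : ℕ) (B : ℝ≥0∞) (hB1 : 1 ≤ B) (hB : Mo ν 1 ≤ B) (a : ℕ) :
    ∫⁻ x, Phi' K k a x ∂(iid ν) ≤ B ^ (2 * k) * Vn (kh K k B) k a := by
  unfold Phi' Vn
  rw [lintegral_finsetSum, Finset.mul_sum]
  · apply Finset.sum_le_sum
    intro e he
    rw [lintegral_finsetSum, Finset.mul_sum]
    · apply Finset.sum_le_sum
      intro r hr
      rw [Finset.mem_range] at he hr
      split_ifs with h
      · rw [lint_mul_shift ν (ex_dep 0 e) (measurable_ex 0 e) (measurable_AA K k _), lint_ex]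
        have h2 := lint_AA ν K k B hB (a * k + r - e)
        have h3 : Mo ν 1 ^ e ≤ B ^ (2 * k) :=
          (pow_le_pow_left' hB e).trans (pow_le_pow_right' hB1 (by omega))
        gcongr
      · simp
    · intro r _
      split_ifs
      · exact (measurable_ex 0 e).mul ((measurable_AA K k _).comp (measurable_shift _))
      · exact measurable_const
  · intro e _
    apply Finset.measurable_sum
    intro r _
    split_ifs
    · exact (measurable_ex 0 e).mul ((measurable_AA K k _).comp (measurable_shift _))
    · exact measurable_const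

end moments

end Pool.Agent.H96.Cop
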