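import Mathlib
import Pool.Agent.H96.Cop.Mom

/-!
# The fractional moment criterion
-/

open MeasureTheory ProbabilityTheory Filter Topology
open scoped ENNReal

namespace Pool.Agent.H96.Cop

open Pool.Agent.H95 Pool.Agent.H95.Cop

lemma rpow_sum_le {ι : Type*} (s : Finset ι) (f : ι → ℝ≥0∞) (γ : ℝ) (h0 : 0 < γ) (h1 : γ ≤ 1) :
    (∑ i ∈ s, f i) ^ γ ≤ ∑ i ∈ s, (f i) ^ γ := by
  classical
  induction s using Finset.induction_on with
  | empty => simp [h0]
  | insert a s ha ih =>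
    rw [Finset.sum_insert ha, Finset.sum_insert ha]
    exact (ENNReal.rpow_add_le_add_rpow _ _ h0.le h1).trans (add_le_add le_rfl ih)

lemma lint_rpow_le {Ω : Type*} [MeasurableSpace Ω] (P : Measure Ω) [IsProbabilityMeasure P]
    (f : Ω → ℝ≥0∞) (hf : AEMeasurable f P) (γ : ℝ) (h0 : 0 < γ) (h1 : γ < 1) :
    ∫⁻ x, (f x) ^ γ ∂P ≤ (∫⁻ x, f x ∂P) ^ γ := by
  have hpq : (1 / γ).HolderConjugate (1 / (1 - γ)) := by
    rw [Real.holderConjugate_iff]
    refine ⟨?_, ?_⟩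
    · rw [lt_div_iff₀ h0]; linarith
    · rw [one_div, one_div, inv_inv, inv_inv]; ring
  have h := ENNReal.lintegral_mul_le_Lp_mul_Lq P hpq (f := fun x => (f x) ^ γ) (g := fun _ => 1)
    (hf.pow_const γ) aemeasurable_const
  simp only [Pi.mul_apply, mul_one, one_div, inv_inv, ENNReal.one_rpow, lintegral_const,
    measure_univ] at h
  refine h.trans (le_of_eq ?_)
  simp [← ENNReal.rpow_mul, mul_inv_cancel₀ h0.ne']

section

variable (ν : Measure ℝ) [IsProbabilityMeasure ν] (K : PMF ℕ) (k : ℕ) (γ : ℝ)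
  (B θ : ℝ≥0∞)

lemma lint_Phi_rpow (hγ0 : 0 < γ) (hγ1 : γ < 1) (hB1 : 1 ≤ B) (hB : Mo ν 1 ≤ B) (a : ℕ) :
    ∫⁻ x, (Phi K k a x) ^ γ ∂(iid ν) ≤ (B ^ (2 * k) * Vn (kh K k B) k a) ^ γ :=
  (lint_rpow_le (iid ν) _ (measurable_Phi K k a).aemeasurable γ hγ0 hγ1).trans
    (ENNReal.rpow_le_rpow (lint_Phi ν K k B hB1 hB a) hγ0.le)

lemma lint_Phi'_rpow (hγ0 : 0 < γ) (hγ1 : γ < 1) (hB1 : 1 ≤ B) (hB : Mo ν 1 ≤ B) (a : ℕ) :
    ∫⁻ x, (Phi' K k a x) ^ γ ∂(iid ν) ≤ (B ^ (2 * k) * Vn (kh K k B) k a) ^ γ :=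
  (lint_rpow_le (iid ν) _ (measurable_Phi' K k a).aemeasurable γ hγ0 hγ1).trans
    (ENNReal.rpow_le_rpow (lint_Phi' ν K k B hB1 hB a) hγ0.le)

lemma lint_term (hγ0 : 0 < γ) (hγ1 : γ < 1) (hB1 : 1 ≤ B) (hB : Mo ν 1 ≤ B) (hθ : Mo ν γ ≤ θ)
    (a b : ℕ) (hab : a < b) :
    ∫⁻ x, (Phi K k a x) ^ γ * (ex ((a + 1) * k) (b * k) x) ^ γ ∂(iid ν) ≤
      (B ^ (2 * k) * Vn (kh K k B) k a) ^ γ * θ ^ ((b - a - 1) * k) := by
  have hb : (b - a - 1) * k + (a + 1) * k = b * k := by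
    rw [← add_mul]; congr 1; omega
  have h1 : ∀ x : ℕ → ℝ, (Phi K k a x) ^ γ * (ex ((a + 1) * k) (b * k) x) ^ γ =
      (fun x => (Phi K k a x) ^ γ) x * (fun y => (ex 0 ((b - a - 1) * k) y) ^ γ)
        (shift ((a + 1) * k) x) := by
    intro x
    simp only
    rw [ex_shift, zero_add, hb]
  have hdep : DepLt ((a + 1) * k) (fun x => (Phi K k a x) ^ γ) := by
    intro x x' h
    simp only
    rw [Phi_dep K k a x x' h]
  have h2 := lint_mul_shift ν hdep ((measurable_Phi K k a).pow_const γ)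
    ((measurable_ex 0 ((b - a - 1) * k)).pow_const γ)
  rw [lintegral_congr h1]
  refine (le_of_eq h2).trans ?_
  rw [lint_ex_rpow ν γ hγ0.le]
  have h3 := lint_Phi_rpow ν K k γ B hγ0 hγ1 hB1 hB a
  gcongr

lemma lint_term2 (hγ0 : 0 < γ) (hγ1 : γ < 1) (hB1 : 1 ≤ B) (hB : Mo ν 1 ≤ B) (hθ : Mo ν γ ≤ θ)
    (a b m : ℕ) (hab : a < b) (g : ℝ≥0∞) :
    ∫⁻ x, (Phi K k a x * (g * ex ((a + 1) * k) (b * k) x * Psi K k m (shift (b * k) x))) ^ γ
      ∂(iid ν) ≤
      (B ^ (2 * k) * Vn (kh K k B) k a) ^ γ * (g ^ γ * θ ^ ((b - a - 1) * k) *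
        ∫⁻ x, (Psi K k m x) ^ γ ∂(iid ν)) := by
  have hab' : (a + 1) * k ≤ b * k := Nat.mul_le_mul_right k hab
  have h1 : ∀ x : ℕ → ℝ, (Phi K k a x * (g * ex ((a + 1) * k) (b * k) x *
      Psi K k m (shift (b * k) x))) ^ γ = g ^ γ * ((fun x => (Phi K k a x) ^ γ *
      (ex ((a + 1) * k) (b * k) x) ^ γ) x * (fun y => (Psi K k m y) ^ γ) (shift (b * k) x)) := by
    intro x
    simp only
    rw [ENNReal.mul_rpow_of_nonneg _ _ hγ0.le, ENNReal.mul_rpow_of_nonneg _ _ hγ0.le,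
      ENNReal.mul_rpow_of_nonneg _ _ hγ0.le]
    ring
  have hdep : DepLt (b * k) (fun x => (Phi K k a x) ^ γ * (ex ((a + 1) * k) (b * k) x) ^ γ) := by
    intro x x' h
    simp only
    rw [(Phi_dep K k a).mono hab' x x' h, ex_dep _ _ x x' h]
  have hm1 : Measurable (fun x => (Phi K k a x) ^ γ * (ex ((a + 1) * k) (b * k) x) ^ γ) :=
    ((measurable_Phi K k a).pow_const γ).mul ((measurable_ex _ _).pow_const γ)
  have hm2 : Measurable (fun y => (Psi K k m y) ^ γ) := (measurable_Psi K k m).pow_const γ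
  have h2 := lint_mul_shift ν hdep hm1 hm2
  have hm3 : Measurable (fun x => (fun x => (Phi K k a x) ^ γ * (ex ((a + 1) * k) (b * k) x) ^ γ) x *
      (fun y => (Psi K k m y) ^ γ) (shift (b * k) x)) := hm1.mul (hm2.comp (measurable_shift _))
  rw [lintegral_congr h1, lintegral_const_mul _ hm3]
  have h3 := lint_term ν K k γ B θ hγ0 hγ1 hB1 hB hθ a b hab
  calc g ^ γ * ∫⁻ x, (fun x => (Phi K k a x) ^ γ * (ex ((a + 1) * k) (b * k) x) ^ γ) x *
        (fun y => (Psi K k m y) ^ γ) (shift (b * k) x) ∂(iid ν)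
      = g ^ γ * ((∫⁻ x, (Phi K k a x) ^ γ * (ex ((a + 1) * k) (b * k) x) ^ γ ∂(iid ν)) *
        ∫⁻ x, (Psi K k m x) ^ γ ∂(iid ν)) := by rw [← h2]
    _ ≤ g ^ γ * (((B ^ (2 * k) * Vn (kh K k B) k a) ^ γ * θ ^ ((b - a - 1) * k)) *
        ∫⁻ x, (Psi K k m x) ^ γ ∂(iid ν)) := by gcongr
    _ = _ := by ring

/-- the fractional moment criterion -/
theorem frac_bound (hK0 : K 0 = 0) (hk : 1 ≤ k) (G : ℕ → ℝ≥0∞)
    (hG : ∀ j m : ℕ, 1 ≤ j → k < m → (j - 1) * k < m → pk K m * 2⁻¹ ≤ G j)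
    (hγ0 : 0 < γ) (hγ1 : γ < 1) (hB1 : 1 ≤ B) (hB : Mo ν 1 ≤ B) (hθ : Mo ν γ ≤ θ) (hθ1 : θ ≤ 1)
    (F Γ : ℝ≥0∞)
    (hF : ∀ n, ∑ a ∈ Finset.range n, (B ^ (2 * k) * Vn (kh K k B) k a) ^ γ ≤ F)
    (hΓ : ∀ n, ∑ j ∈ Finset.Ico 1 n, (G j) ^ γ * θ ^ ((j - 1) * k) ≤ Γ)
    (hFΓ : F * Γ ≤ 2⁻¹) (n : ℕ) (hn : 1 ≤ n) :
    ∫⁻ x, (Psi K k n x) ^ γ ∂(iid ν) ≤ 4 * F := by
  induction n using Nat.strong_induction_on with
  | _ n ih =>
    set φ : ℕ → ℝ≥0∞ := fun a => (B ^ (2 * k) * Vn (kh K k B) k a) ^ γ with hφ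
    have hpt : ∀ x : ℕ → ℝ, (Psi K k n x) ^ γ ≤ ∑ a ∈ Finset.range n,
        (∑ b ∈ Finset.Ico (a + 1) n, (Phi K k a x * (G (b - a) *
        ex ((a + 1) * k) (b * k) x * Psi K k (n - b) (shift (b * k) x))) ^ γ +
        (Phi K k a x) ^ γ * (ex ((a + 1) * k) (n * k) x) ^ γ + (Phi' K k a x) ^ γ) := by
      intro x
      refine (ENNReal.rpow_le_rpow (coarse K hK0 k hk G hG n hn x) hγ0.le).trans ?_
      refine (rpow_sum_le _ _ γ hγ0 hγ1.le).trans ?_
      apply Finset.sum_le_sum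
      intro a _
      refine (ENNReal.rpow_add_le_add_rpow _ _ hγ0.le hγ1.le).trans ?_
      refine add_le_add ?_ le_rfl
      rw [mul_add]
      refine (ENNReal.rpow_add_le_add_rpow _ _ hγ0.le hγ1.le).trans ?_
      refine add_le_add ?_ (le_of_eq (ENNReal.mul_rpow_of_nonneg _ _ hγ0.le))
      rw [Finset.mul_sum]
      exact rpow_sum_le _ _ γ hγ0 hγ1.le
    refine (lintegral_mono hpt).trans ?_
    have hmt : ∀ a b : ℕ, Measurable (fun x : ℕ → ℝ => (Phi K k a x * (G (b - a) *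
        ex ((a + 1) * k) (b * k) x * Psi K k (n - b) (shift (b * k) x))) ^ γ) := fun a b =>
      ((measurable_Phi K k a).mul (((measurable_ex _ _).const_mul _).mul
        ((measurable_Psi K k _).comp (measurable_shift _)))).pow_const γ
    have hmt2 : ∀ a : ℕ, Measurable (fun x : ℕ → ℝ => (Phi K k a x) ^ γ *
        (ex ((a + 1) * k) (n * k) x) ^ γ) := fun a =>
      ((measurable_Phi K k a).pow_const γ).mul ((measurable_ex _ _).pow_const γ)
    have hmt3 : ∀ a : ℕ, Measurable (fun x : ℕ → ℝ => (Phi' K k a x) ^ γ) := fun a =>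
      (measurable_Phi' K k a).pow_const γ
    have hmt1 : ∀ a : ℕ, Measurable (fun x : ℕ → ℝ => ∑ b ∈ Finset.Ico (a + 1) n,
        (Phi K k a x * (G (b - a) *
        ex ((a + 1) * k) (b * k) x * Psi K k (n - b) (shift (b * k) x))) ^ γ) := fun a =>
      Finset.measurable_sum _ (fun b _ => hmt a b)
    rw [lintegral_finsetSum]
    swap
    · intro a _
      exact ((hmt1 a).add (hmt2 a)).add (hmt3 a)
    have hstep : ∀ a ∈ Finset.range n, ∫⁻ x, (∑ b ∈ Finset.Ico (a + 1) n,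
        (Phi K k a x * (G (b - a) *
        ex ((a + 1) * k) (b * k) x * Psi K k (n - b) (shift (b * k) x))) ^ γ +
        (Phi K k a x) ^ γ * (ex ((a + 1) * k) (n * k) x) ^ γ + (Phi' K k a x) ^ γ) ∂(iid ν) ≤
        φ a * (Γ * (4 * F) + 2) := by
      intro a ha
      rw [Finset.mem_range] at ha
      have hmt4 : Measurable (fun x : ℕ → ℝ => ∑ b ∈ Finset.Ico (a + 1) n,
        (Phi K k a x * (G (b - a) *
        ex ((a + 1) * k) (b * k) x * Psi K k (n - b) (shift (b * k) x))) ^ γ +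
        (Phi K k a x) ^ γ * (ex ((a + 1) * k) (n * k) x) ^ γ) := (hmt1 a).add (hmt2 a)
      rw [lintegral_add_left hmt4, lintegral_add_left (hmt1 a),
        lintegral_finsetSum _ (fun b _ => hmt a b)]
      have s1 : ∑ b ∈ Finset.Ico (a + 1) n, ∫⁻ x, (Phi K k a x * (G (b - a) *
          ex ((a + 1) * k) (b * k) x * Psi K k (n - b) (shift (b * k) x))) ^ γ ∂(iid ν) ≤
          φ a * (Γ * (4 * F)) := by
        calc ∑ b ∈ Finset.Ico (a + 1) n, ∫⁻ x, (Phi K k a x * (G (b - a) *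
              ex ((a + 1) * k) (b * k) x * Psi K k (n - b) (shift (b * k) x))) ^ γ ∂(iid ν)
            ≤ ∑ b ∈ Finset.Ico (a + 1) n, φ a * ((G (b - a)) ^ γ * θ ^ ((b - a - 1) * k) *
              (4 * F)) := by
              apply Finset.sum_le_sum
              intro b hb
              rw [Finset.mem_Ico] at hb
              refine (lint_term2 ν K k γ B θ hγ0 hγ1 hB1 hB hθ a b (n - b) (by omega) _).trans ?_
              have := ih (n - b) (by omega) (by omega)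
              gcongr
          _ = φ a * ((∑ b ∈ Finset.Ico (a + 1) n, (G (b - a)) ^ γ * θ ^ ((b - a - 1) * k)) *
              (4 * F)) := by
              rw [← Finset.mul_sum, Finset.sum_mul]
          _ ≤ φ a * (Γ * (4 * F)) := by
              have h1 : ∑ b ∈ Finset.Ico (a + 1) n, (G (b - a)) ^ γ * θ ^ ((b - a - 1) * k) =
                  ∑ j ∈ Finset.Ico 1 (n - a), (G j) ^ γ * θ ^ ((j - 1) * k) := by
                have e1 : a + 1 = 1 + a := by omega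
                have e2 : n = n - a + a := by omega
                rw [e1]
                conv_lhs => rw [e2]
                rw [← Finset.sum_Ico_add' (fun b => (G (b - a)) ^ γ * θ ^ ((b - a - 1) * k)) 1
                  (n - a) a]
                apply Finset.sum_congr rfl
                intro j _
                rw [Nat.add_sub_cancel]
              rw [h1]
              have h2 := hΓ (n - a)
              gcongr
      have s2 : ∫⁻ x, (Phi K k a x) ^ γ * (ex ((a + 1) * k) (n * k) x) ^ γ ∂(iid ν) ≤ φ a := by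
        refine (lint_term ν K k γ B θ hγ0 hγ1 hB1 hB hθ a n ha).trans ?_
        exact mul_le_of_le_one_right' (pow_le_one' hθ1 _)
      have s3 : ∫⁻ x, (Phi' K k a x) ^ γ ∂(iid ν) ≤ φ a :=
        lint_Phi'_rpow ν K k γ B hγ0 hγ1 hB1 hB a
      calc _ ≤ φ a * (Γ * (4 * F)) + φ a + φ a := add_le_add (add_le_add s1 s2) s3
        _ = φ a * (Γ * (4 * F) + 2) := by ring
    refine (Finset.sum_le_sum hstep).trans ?_
    rw [← Finset.sum_mul]
    calc (∑ a ∈ Finset.range n, φ a) * (Γ * (4 * F) + 2) ≤ F * (Γ * (4 * F) + 2) := by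
          have := hF n
          gcongr
      _ = (F * Γ) * (4 * F) + 2 * F := by ring
      _ ≤ 2⁻¹ * (4 * F) + 2 * F := by gcongr
      _ = 4 * F := by
          have : (2⁻¹ : ℝ≥0∞) * 4 = 2 := by
            rw [show (4 : ℝ≥0∞) = 2 * 2 by norm_num, ← mul_assoc, ENNReal.inv_mul_cancel (by norm_num)
              (by norm_num), one_mul]
          rw [← mul_assoc, this, ← add_mul]
          norm_num

end

end Pool.Agent.H96.Cop
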