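import Mathlib
import Pool.Agent.H95.Cop.Renewal

/-!
# Real estimates for the renewal weights
-/

open MeasureTheory ProbabilityTheory Filter Topology

namespace Pool.Agent.H96.Cop

open Pool.Agent.H95 Pool.Agent.H95.Cop

/-- telescoping inequality -/
lemma tele {s x y : ℝ} (hs : 0 ≤ s) (hy : 0 < y) (hxy : y ≤ x) :
    s * (x - y) * x ^ (-(1 + s)) ≤ y ^ (-s) - x ^ (-s) := by
  have hx : 0 < x := hy.trans_le hxy
  have h1 : y ^ (-s) = x ^ (-s) * (y / x) ^ (-s) := by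
    rw [← Real.mul_rpow hx.le (by positivity)]
    congr 1; field_simp
  have h2 : x ^ (-(1 + s)) = x ^ (-s) * (1 / x) := by
    rw [show -(1 + s) = -s + (-1) by ring, Real.rpow_add hx, Real.rpow_neg_one]
    ring
  have h3 : 1 + s * (1 - y / x) ≤ (y / x) ^ (-s) := by
    have hr : 0 < y / x := by positivity
    rw [Real.rpow_def_of_pos hr]
    have h4 := Real.log_le_sub_one_of_pos hr
    have h5 : s * (1 - y / x) ≤ Real.log (y / x) * -s := by nlinarith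
    calc 1 + s * (1 - y / x) = s * (1 - y / x) + 1 := by ring
      _ ≤ Real.exp (s * (1 - y / x)) := Real.add_one_le_exp _
      _ ≤ _ := Real.exp_le_exp.mpr h5
  have h6 : 0 < x ^ (-s) := Real.rpow_pos_of_pos hx _
  rw [h1, h2]
  have e : s * (x - y) * (x ^ (-s) * (1 / x)) = x ^ (-s) * (s * (1 - y / x)) := by
    field_simp
  rw [e]
  nlinarith [mul_le_mul_of_nonneg_left h3 h6.le]

lemma tele_up {s x y : ℝ} (hs : 0 ≤ s) (hy : 0 < y) (hxy : y ≤ x) :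
    y ^ (-s) - x ^ (-s) ≤ s * (x - y) * y ^ (-(1 + s)) := by
  have hx : 0 < x := hy.trans_le hxy
  have h1 : x ^ (-s) = y ^ (-s) * (x / y) ^ (-s) := by
    rw [← Real.mul_rpow hy.le (by positivity)]
    congr 1; field_simp
  have h2 : y ^ (-(1 + s)) = y ^ (-s) * (1 / y) := by
    rw [show -(1 + s) = -s + (-1) by ring, Real.rpow_add hy, Real.rpow_neg_one]
    ring
  have h3 : 1 - s * (x / y - 1) ≤ (x / y) ^ (-s) := by
    have hr : 0 < x / y := by positivity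
    rw [Real.rpow_def_of_pos hr]
    have h4 := Real.log_le_sub_one_of_pos hr
    have h5 : -(s * (x / y - 1)) ≤ Real.log (x / y) * -s := by nlinarith
    calc 1 - s * (x / y - 1) = -(s * (x / y - 1)) + 1 := by ring
      _ ≤ Real.exp (-(s * (x / y - 1))) := Real.add_one_le_exp _
      _ ≤ _ := Real.exp_le_exp.mpr h5
  have h6 : 0 < y ^ (-s) := Real.rpow_pos_of_pos hy _
  rw [h1, h2]
  have e : s * (x - y) * (y ^ (-s) * (1 / y)) = y ^ (-s) * (s * (x / y - 1)) := by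
    field_simp
  rw [e]
  nlinarith [mul_le_mul_of_nonneg_left h3 h6.le]

lemma sum_pow_up {s : ℝ} (hs : 0 < s) {k N : ℕ} (hk : 1 ≤ k) (hkN : k ≤ N) :
    ∑ j ∈ Finset.Ico k N, ((j : ℝ) + 1) ^ (-(1 + s)) ≤ ((k : ℝ) ^ (-s) - (N : ℝ) ^ (-s)) / s := by
  rw [le_div_iff₀ hs]
  induction N, hkN using Nat.le_induction with
  | base => simp
  | succ N hkN ih =>
    rw [Finset.sum_Ico_succ_top hkN, add_mul]
    have hN : (0:ℝ) < N := by exact_mod_cast (lt_of_lt_of_le Nat.zero_lt_one (hk.trans hkN))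
    have h := tele (s := s) (x := (N : ℝ) + 1) (y := N) hs.le hN (by linarith)
    push_cast
    have e : s * ((N : ℝ) + 1 - N) * ((N : ℝ) + 1) ^ (-(1 + s)) = ((N : ℝ) + 1) ^ (-(1 + s)) * s := by
      ring
    rw [e] at h
    linarith

lemma sum_pow_low {s : ℝ} (hs : 0 < s) {k N : ℕ} (hk : 1 ≤ k) (hkN : k ≤ N) :
    ((k : ℝ) ^ (-s) - (N : ℝ) ^ (-s)) / s ≤ ∑ n ∈ Finset.Ico k N, (n : ℝ) ^ (-(1 + s)) := by
  rw [div_le_iff₀ hs]
  induction N, hkN using Nat.le_induction with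
  | base => simp
  | succ N hkN ih =>
    rw [Finset.sum_Ico_succ_top hkN, add_mul]
    have hN : (0:ℝ) < N := by exact_mod_cast (lt_of_lt_of_le Nat.zero_lt_one (hk.trans hkN))
    have h := tele_up (s := s) (x := (N : ℝ) + 1) (y := N) hs.le hN (by linarith)
    push_cast
    have e : s * ((N : ℝ) + 1 - N) * (N : ℝ) ^ (-(1 + s)) = (N : ℝ) ^ (-(1 + s)) * s := by
      ring
    rw [e] at h
    linarith

lemma sum_kk_succ (K : PMF ℕ) (hK0 : K 0 = 0) (k : ℕ) :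
    ∑ j ∈ Finset.range k, kk K (j + 1) = 1 - tailK K (k + 1) := by
  unfold tailK
  rw [Finset.sum_range_succ', kk_zero K hK0]
  ring

lemma sum_kk_Ico_le (K : PMF ℕ) (k N : ℕ) (hkN : k ≤ N) :
    ∑ n ∈ Finset.Ico k N, kk K n ≤ tailK K k := by
  have h1 := tailK_nonneg K N
  unfold tailK at *
  have h2 : ∑ j ∈ Finset.range k, kk K j + ∑ n ∈ Finset.Ico k N, kk K n =
      ∑ j ∈ Finset.range N, kk K j := by
    rw [Finset.range_eq_Ico, Finset.range_eq_Ico]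
    exact Finset.sum_Ico_consecutive _ (Nat.zero_le k) hkN
  linarith

/-- lower bound of the tail -/
lemma tail_low (K : PMF ℕ) (α c : ℝ) (hα : 0 < α) (hα1 : α ≤ 1) (hc : 0 < c) (n0 : ℕ)
    (hlow : ∀ n : ℕ, n0 ≤ n → c / 2 * (n : ℝ) ^ (-(1 + α)) ≤ kk K n) (k : ℕ) (hk1 : 1 ≤ k)
    (hk : n0 ≤ k) : c / (4 * α) * (k : ℝ) ^ (-α) ≤ tailK K (k + 1) := by
  have hk0 : (0:ℝ) < k := by exact_mod_cast hk1
  have h1 : ∀ N : ℕ, k + 1 ≤ N →
      c / 2 * ((((k + 1 : ℕ) : ℝ) ^ (-α) - (N : ℝ) ^ (-α)) / α) ≤ tailK K (k + 1) := by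
    intro N hN
    refine le_trans ?_ (sum_kk_Ico_le K (k + 1) N hN)
    refine le_trans (mul_le_mul_of_nonneg_left (sum_pow_low hα (by omega) hN) (by positivity)) ?_
    rw [Finset.mul_sum]
    apply Finset.sum_le_sum
    intro n hn
    rw [Finset.mem_Ico] at hn
    exact hlow n (by omega)
  have h2 : Tendsto (fun N : ℕ => c / 2 * ((((k + 1 : ℕ) : ℝ) ^ (-α) - (N : ℝ) ^ (-α)) / α)) atTop
      (𝓝 (c / 2 * ((((k + 1 : ℕ) : ℝ) ^ (-α) - 0) / α))) := by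
    apply Tendsto.const_mul
    apply Tendsto.div_const
    apply Tendsto.sub tendsto_const_nhds
    exact (tendsto_rpow_neg_atTop hα).comp tendsto_natCast_atTop_atTop
  have h3 : c / 2 * ((((k + 1 : ℕ) : ℝ) ^ (-α) - 0) / α) ≤ tailK K (k + 1) := by
    refine le_of_tendsto h2 ?_
    filter_upwards [eventually_ge_atTop (k + 1)] with N hN
    exact h1 N hN
  refine le_trans ?_ h3
  rw [sub_zero]
  have h4 : (1:ℝ) / 2 * (k : ℝ) ^ (-α) ≤ ((k + 1 : ℕ) : ℝ) ^ (-α) := by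
    have h5 : ((2:ℝ) * k) ^ (-α) ≤ ((k + 1 : ℕ) : ℝ) ^ (-α) := by
      apply Real.rpow_le_rpow_of_nonpos (by positivity) _ (by linarith)
      push_cast
      have : (1:ℝ) ≤ k := by exact_mod_cast hk1
      linarith
    refine le_trans ?_ h5
    rw [Real.mul_rpow (by norm_num) hk0.le]
    apply mul_le_mul_of_nonneg_right _ (Real.rpow_nonneg hk0.le _)
    have h6 : (2:ℝ) ^ (-(1:ℝ)) ≤ 2 ^ (-α) := Real.rpow_le_rpow_of_exponent_le (by norm_num) (by linarith)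
    rw [Real.rpow_neg_one] at h6
    linarith
  have h7 : 0 ≤ (k : ℝ) ^ (-α) := Real.rpow_nonneg hk0.le _
  have h8 : 0 < c / (2 * α) := by positivity
  calc c / (4 * α) * (k : ℝ) ^ (-α) = c / (2 * α) * (1 / 2 * (k : ℝ) ^ (-α)) := by
        field_simp; ring
    _ ≤ c / (2 * α) * (((k + 1 : ℕ) : ℝ) ^ (-α)) := mul_le_mul_of_nonneg_left h4 h8.le
    _ = _ := by field_simp

/-- truncated mean -/
lemma trunc_mean (K : PMF ℕ) (hK0 : K 0 = 0) (α c : ℝ) (hα : 0 < α) (hα1 : α ≤ 1 / 2) (hc : 0 < c)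
    (n0 : ℕ) (hup : ∀ n : ℕ, n0 ≤ n → kk K n ≤ 2 * c * (n : ℝ) ^ (-(1 + α))) (k : ℕ)
    (hk : (n0 : ℝ) ≤ c * (k : ℝ) ^ (1 - α)) :
    ∑ j ∈ Finset.range k, ((j : ℝ) + 1) * kk K (j + 1) ≤ 5 * c * (k : ℝ) ^ (1 - α) := by
  have h1 : ∀ j ∈ Finset.range k, ((j : ℝ) + 1) * kk K (j + 1) ≤
      n0 * kk K (j + 1) + 2 * c * ((j : ℝ) + 1) ^ (-α) := by
    intro j _
    have hj : (0:ℝ) < (j : ℝ) + 1 := by positivity
    have h0 := kk_nonneg K (j + 1)
    have hp : 0 ≤ ((j : ℝ) + 1) ^ (-α) := Real.rpow_nonneg hj.le _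
    by_cases h : n0 ≤ j + 1
    · have h2 := hup (j + 1) h
      have h3 : ((j : ℝ) + 1) * (2 * c * (((j + 1 : ℕ) : ℝ)) ^ (-(1 + α))) =
          2 * c * ((j : ℝ) + 1) ^ (-α) := by
        push_cast
        rw [show -(1 + α) = -α + (-1) by ring, Real.rpow_add hj, Real.rpow_neg_one]
        field_simp
      have h4 := mul_le_mul_of_nonneg_left h2 hj.le
      rw [h3] at h4
      have : 0 ≤ (n0 : ℝ) * kk K (j + 1) := by positivity
      linarith
    · have h2 : ((j : ℝ) + 1) ≤ n0 := by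
        have : j + 1 ≤ n0 := by omega
        exact_mod_cast this
      have := mul_le_mul_of_nonneg_right h2 h0
      have : 0 ≤ 2 * c * ((j : ℝ) + 1) ^ (-α) := by positivity
      linarith
  refine (Finset.sum_le_sum h1).trans ?_
  rw [Finset.sum_add_distrib, ← Finset.mul_sum, ← Finset.mul_sum, sum_kk_succ K hK0]
  have h2 := tailK_nonneg K (k + 1)
  have h3 := sum_rpow_le α hα (by linarith) k
  have h4 : (k : ℝ) ^ (1 - α) / (1 - α) ≤ 2 * (k : ℝ) ^ (1 - α) := by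
    rw [div_le_iff₀ (by linarith)]
    have : 0 ≤ (k : ℝ) ^ (1 - α) := Real.rpow_nonneg (Nat.cast_nonneg k) _
    nlinarith
  have h5 : (n0 : ℝ) * (1 - tailK K (k + 1)) ≤ n0 := by
    have : (0:ℝ) ≤ n0 := Nat.cast_nonneg n0
    nlinarith
  have h6 : 2 * c * ∑ j ∈ Finset.range k, ((j : ℝ) + 1) ^ (-α) ≤ 2 * c * (2 * (k : ℝ) ^ (1 - α)) :=
    mul_le_mul_of_nonneg_left (h3.trans h4) (by positivity)
  linarith

end Pool.Agent.H96.Cop
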