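import Mathlib
import Pool.Agent.H96.Cop.Est

/-!
# The total weighted mass is below one
-/

open MeasureTheory ProbabilityTheory Filter Topology

namespace Pool.Agent.H96.Cop

open Pool.Agent.H95 Pool.Agent.H95.Cop

/-- the weight -/
noncomputable def wr (β ε : ℝ) (k m : ℕ) : ℝ := (1 + ε * ((m : ℝ) / k)) ^ β

/-- real mean weights -/
noncomputable def khr (K : PMF ℕ) (k : ℕ) (b : ℝ) (n : ℕ) : ℝ :=
  if n ≤ k then kk K n * ((1 + Real.exp (b * n)) / 2) else kk K n / 2

lemma khr_nonneg (K : PMF ℕ) (k : ℕ) (b : ℝ) (n : ℕ) : 0 ≤ khr K k b n := by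
  unfold khr
  have h := kk_nonneg K n
  have h2 := Real.exp_pos (b * n)
  split_ifs <;> positivity

lemma wr_pos {β ε : ℝ} (hε : 0 ≤ ε) (k m : ℕ) : 0 < wr β ε k m := by
  unfold wr
  apply Real.rpow_pos_of_pos
  positivity

lemma exp_le_one_add_two {x : ℝ} (h0 : 0 ≤ x) (h1 : x ≤ 1) : Real.exp x ≤ 1 + 2 * x := by
  have h := Real.abs_exp_sub_one_sub_id_le (x := x) (by rw [abs_of_nonneg h0]; exact h1)
  rw [abs_le] at h
  nlinarith [h.2]

/-- main estimate of the weighted mass -/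
lemma rho_bound (K : PMF ℕ) (hK0 : K 0 = 0) (α c : ℝ) (hα : 0 < α) (hα1 : α ≤ 1 / 40) (hc : 0 < c)
    (n0 : ℕ) (hlow : ∀ n : ℕ, n0 ≤ n → c / 2 * (n : ℝ) ^ (-(1 + α)) ≤ kk K n)
    (hup : ∀ n : ℕ, n0 ≤ n → kk K n ≤ 2 * c * (n : ℝ) ^ (-(1 + α))) (k : ℕ) (hk1 : 1 ≤ k)
    (hk : n0 ≤ k) (hk2 : (n0 : ℝ) ≤ c * (k : ℝ) ^ (1 - α)) (σ ε b : ℝ) (hσ : 0 < σ)
    (hσα : σ ≤ α / 2) (hε0 : 0 < ε) (hε1 : ε ≤ 1) (hε : ε ^ (α - σ / 2) = σ / (64 * α))
    (hb : 0 ≤ b) (hbk : b * k ≤ 3 * α) (N : ℕ) :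
    ∑ j ∈ Finset.range N, khr K k b (j + 1) * wr (α - σ / 2) ε k (j + 1) ≤
      1 - c * (k : ℝ) ^ (-α) / (16 * α) := by
  set β := α - σ / 2 with hβ
  have hβ0 : 0 < β := by rw [hβ]; linarith
  have hβα : β ≤ α := by rw [hβ]; linarith
  have hk0 : (0:ℝ) < k := by exact_mod_cast hk1
  have hkα : 0 < (k : ℝ) ^ (-α) := Real.rpow_pos_of_pos hk0 _
  -- reduce to `N ≥ k`
  have hN : ∑ j ∈ Finset.range N, khr K k b (j + 1) * wr β ε k (j + 1) ≤
      ∑ j ∈ Finset.range (max N k), khr K k b (j + 1) * wr β ε k (j + 1) := by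
    apply Finset.sum_le_sum_of_subset_of_nonneg
    · intro j hj
      rw [Finset.mem_range] at hj ⊢
      exact lt_of_lt_of_le hj (le_max_left _ _)
    · intro j _ _
      exact mul_nonneg (khr_nonneg K k b _) (wr_pos hε0.le k _).le
  refine hN.trans ?_
  have hsplit : ∑ j ∈ Finset.range (max N k), khr K k b (j + 1) * wr β ε k (j + 1) =
      ∑ j ∈ Finset.range k, khr K k b (j + 1) * wr β ε k (j + 1) +
      ∑ j ∈ Finset.Ico k (max N k), khr K k b (j + 1) * wr β ε k (j + 1) := by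
    rw [Finset.range_eq_Ico, Finset.range_eq_Ico]
    exact (Finset.sum_Ico_consecutive _ (Nat.zero_le k) (le_max_right _ _)).symm
  rw [hsplit]
  -- small excursions
  have h1 : ∑ j ∈ Finset.range k, khr K k b (j + 1) * wr β ε k (j + 1) ≤
      (1 - tailK K (k + 1)) + 5 * α / k * (5 * c * (k : ℝ) ^ (1 - α)) := by
    have h2 : ∀ j ∈ Finset.range k, khr K k b (j + 1) * wr β ε k (j + 1) ≤
        kk K (j + 1) + 5 * α / k * (((j : ℝ) + 1) * kk K (j + 1)) := by
      intro j hj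
      rw [Finset.mem_range] at hj
      have hkk := kk_nonneg K (j + 1)
      unfold khr wr
      rw [if_pos (by omega)]
      push_cast
      set t : ℝ := ((j : ℝ) + 1) / k with ht
      have ht0 : 0 ≤ t := by rw [ht]; positivity
      have ht1 : t ≤ 1 := by
        rw [ht, div_le_one hk0]
        have : j + 1 ≤ k := by omega
        exact_mod_cast this
      have hbt : b * ((j : ℝ) + 1) = b * k * t := by rw [ht]; field_simp
      have hbt0 : 0 ≤ b * k * t := by positivity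
      have hbt1 : b * k * t ≤ 3 * α * t := mul_le_mul_of_nonneg_right hbk ht0
      have hαt : α * t ≤ α := mul_le_of_le_one_right hα.le ht1
      have hexp : Real.exp (b * ((j : ℝ) + 1)) ≤ 1 + 6 * (α * t) := by
        rw [hbt]
        have := exp_le_one_add_two hbt0 (by linarith)
        linarith
      have hw : (1 + ε * t) ^ β ≤ 1 + α * t := by
        have h3 := rpow_one_add_le_one_add_mul_self (s := ε * t) (by nlinarith [mul_nonneg hε0.le ht0])
          hβ0.le (by linarith : β ≤ 1)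
        have h4 : β * (ε * t) ≤ α * t := by
          have h5 : ε * t ≤ t := mul_le_of_le_one_left ht0 hε1
          have h6 : 0 ≤ ε * t := by positivity
          nlinarith
        linarith
      have hwp : 0 ≤ (1 + ε * t) ^ β := Real.rpow_nonneg (by positivity) _
      have hprod : (1 + Real.exp (b * ((j : ℝ) + 1))) / 2 * (1 + ε * t) ^ β ≤ 1 + 5 * (α * t) := by
        have hαt0 : 0 ≤ α * t := by positivity
        have h3 : (1 + Real.exp (b * ((j : ℝ) + 1))) / 2 ≤ 1 + 3 * (α * t) := by linarith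
        have h4 : (1 + Real.exp (b * ((j : ℝ) + 1))) / 2 * (1 + ε * t) ^ β ≤
            (1 + 3 * (α * t)) * (1 + α * t) :=
          mul_le_mul h3 hw hwp (by positivity)
        nlinarith
      calc kk K (j + 1) * ((1 + Real.exp (b * ((j : ℝ) + 1))) / 2) * (1 + ε * t) ^ β
          = kk K (j + 1) * ((1 + Real.exp (b * ((j : ℝ) + 1))) / 2 * (1 + ε * t) ^ β) := by ring
        _ ≤ kk K (j + 1) * (1 + 5 * (α * t)) := mul_le_mul_of_nonneg_left hprod hkk
        _ = _ := by rw [ht]; ring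
    refine (Finset.sum_le_sum h2).trans ?_
    rw [Finset.sum_add_distrib, sum_kk_succ K hK0, ← Finset.mul_sum]
    have h3 := trunc_mean K hK0 α c hα (by linarith) hc n0 hup k hk2
    have h4 : 0 ≤ 5 * α / k := by positivity
    have := mul_le_mul_of_nonneg_left h3 h4
    linarith
  -- long excursions
  have h2 : ∑ j ∈ Finset.Ico k (max N k), khr K k b (j + 1) * wr β ε k (j + 1) ≤
      1 / 2 * tailK K (k + 1) + c * (σ / (64 * α)) * (k : ℝ) ^ (-β) * ((k : ℝ) ^ (-(σ / 2)) / (σ / 2)) := by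
    have h3 : ∀ j ∈ Finset.Ico k (max N k), khr K k b (j + 1) * wr β ε k (j + 1) ≤
        1 / 2 * kk K (j + 1) + c * (σ / (64 * α)) * (k : ℝ) ^ (-β) *
          ((j : ℝ) + 1) ^ (-(1 + σ / 2)) := by
      intro j hj
      rw [Finset.mem_Ico] at hj
      have hkk := kk_nonneg K (j + 1)
      have hj0 : (0:ℝ) < (j : ℝ) + 1 := by positivity
      unfold khr wr
      rw [if_neg (by omega)]
      push_cast
      have h4 : (1 + ε * (((j : ℝ) + 1) / k)) ^ β ≤ 1 + (σ / (64 * α)) * (((j : ℝ) + 1) ^ β *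
          (k : ℝ) ^ (-β)) := by
        have h5 := Real.rpow_add_le_add_rpow (a := 1) (b := ε * (((j : ℝ) + 1) / k)) (by norm_num)
          (by positivity) hβ0.le (by linarith : β ≤ 1)
        rw [Real.one_rpow] at h5
        refine h5.trans (le_of_eq ?_)
        rw [Real.mul_rpow hε0.le (by positivity), hε, Real.div_rpow hj0.le hk0.le,
          Real.rpow_neg hk0.le]
        ring
      have h5 := hup (j + 1) (by omega)
      push_cast at h5
      have h6 : 0 ≤ (σ / (64 * α)) * (((j : ℝ) + 1) ^ β * (k : ℝ) ^ (-β)) := by positivity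
      calc kk K (j + 1) / 2 * (1 + ε * (((j : ℝ) + 1) / k)) ^ β
          ≤ kk K (j + 1) / 2 * (1 + (σ / (64 * α)) * (((j : ℝ) + 1) ^ β * (k : ℝ) ^ (-β))) :=
            mul_le_mul_of_nonneg_left h4 (by positivity)
        _ = 1 / 2 * kk K (j + 1) + kk K (j + 1) / 2 * ((σ / (64 * α)) *
            (((j : ℝ) + 1) ^ β * (k : ℝ) ^ (-β))) := by ring
        _ ≤ 1 / 2 * kk K (j + 1) + (2 * c * ((j : ℝ) + 1) ^ (-(1 + α))) / 2 * ((σ / (64 * α)) *
            (((j : ℝ) + 1) ^ β * (k : ℝ) ^ (-β))) := by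
            have := mul_le_mul_of_nonneg_right h5 h6
            linarith
        _ = 1 / 2 * kk K (j + 1) + c * (σ / (64 * α)) * (k : ℝ) ^ (-β) *
            (((j : ℝ) + 1) ^ (-(1 + α)) * ((j : ℝ) + 1) ^ β) := by ring
        _ = _ := by
            rw [← Real.rpow_add hj0]
            congr 3
            rw [hβ]; ring
    refine (Finset.sum_le_sum h3).trans ?_
    rw [Finset.sum_add_distrib, ← Finset.mul_sum, ← Finset.mul_sum]
    have h4 : ∑ j ∈ Finset.Ico k (max N k), kk K (j + 1) ≤ tailK K (k + 1) := by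
      have h5 := sum_kk_Ico_le K (k + 1) (max N k + 1) (by have := le_max_right N k; omega)
      rw [← Finset.sum_Ico_add' (fun i => kk K i) k (max N k) 1] at h5
      exact h5
    have h5 := sum_pow_up (s := σ / 2) (by linarith) hk1 (le_max_right N k)
    have h6 : ((k : ℝ) ^ (-(σ / 2)) - ((max N k : ℕ) : ℝ) ^ (-(σ / 2))) / (σ / 2) ≤
        (k : ℝ) ^ (-(σ / 2)) / (σ / 2) := by
      apply div_le_div_of_nonneg_right _ (by linarith)
      have : 0 ≤ ((max N k : ℕ) : ℝ) ^ (-(σ / 2)) := Real.rpow_nonneg (Nat.cast_nonneg _) _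
      linarith
    have h7 : 0 ≤ c * (σ / (64 * α)) * (k : ℝ) ^ (-β) := by positivity
    have h8 := mul_le_mul_of_nonneg_left (h5.trans h6) h7
    linarith
  -- combination
  have h3 : c * (σ / (64 * α)) * (k : ℝ) ^ (-β) * ((k : ℝ) ^ (-(σ / 2)) / (σ / 2)) =
      c * (k : ℝ) ^ (-α) / (32 * α) := by
    have h4 : (k : ℝ) ^ (-β) * (k : ℝ) ^ (-(σ / 2)) = (k : ℝ) ^ (-α) := by
      rw [← Real.rpow_add hk0]
      congr 1
      rw [hβ]; ring
    rw [← h4]
    field_simp
    ring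
  have h4 : 5 * α / k * (5 * c * (k : ℝ) ^ (1 - α)) = 25 * α * c * (k : ℝ) ^ (-α) := by
    have h5 : (k : ℝ) ^ (1 - α) = k * (k : ℝ) ^ (-α) := by
      rw [show (1 - α) = 1 + (-α) by ring, Real.rpow_add hk0, Real.rpow_one]
    rw [h5]
    field_simp
    ring
  have h5 := tail_low K α c hα (by linarith) hc n0 hlow k hk1 hk
  rw [h4] at h1
  rw [h3] at h2
  have h6 : 25 * α * c * (k : ℝ) ^ (-α) ≤ c * (k : ℝ) ^ (-α) / (32 * α) := by
    rw [le_div_iff₀ (by positivity)]
    have h7 : 25 * α * (32 * α) ≤ 1 := by nlinarith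
    have h8 : 0 < c * (k : ℝ) ^ (-α) := by positivity
    nlinarith
  have h8 : c * (k : ℝ) ^ (-α) / (32 * α) = (c * (k : ℝ) ^ (-α) / (16 * α)) / 2 := by
    field_simp; ring
  set Q := c * (k : ℝ) ^ (-α) / (16 * α) with hQ
  have h9 : c / (4 * α) * (k : ℝ) ^ (-α) = 4 * Q := by
    rw [hQ]; field_simp; ring
  rw [h9] at h5
  rw [h8] at h2 h6
  linarith

end Pool.Agent.H96.Cop
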