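import Mathlib
import Pool.Agent.H96.Cop.Frac

/-!
# Weighted sums of the renewal function
-/

open MeasureTheory ProbabilityTheory Filter Topology
open scoped ENNReal

namespace Pool.Agent.H96.Cop

open Pool.Agent.H95 Pool.Agent.H95.Cop

lemma sum_Un (κ w : ℕ → ℝ≥0∞) (hw0 : w 0 ≤ 1) (hw : ∀ m n, w (m + n) ≤ w m * w n) (ρ R : ℝ≥0∞)
    (hρ : ∀ N, ∑ j ∈ Finset.range N, κ (j + 1) * w (j + 1) ≤ ρ) (hR : 1 + ρ * R ≤ R) (N : ℕ) :
    ∑ s ∈ Finset.range N, Un κ s * w s ≤ R := by
  induction N with
  | zero => simp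
  | succ N ih =>
    rw [Finset.sum_range_succ', Un_zero, one_mul, add_comm]
    refine le_trans ?_ hR
    refine add_le_add hw0 ?_
    have h1 : ∀ s ∈ Finset.range N, Un κ (s + 1) * w (s + 1) ≤ ∑ j ∈ Finset.range (s + 1),
        (fun j t => (κ (j + 1) * w (j + 1)) * (Un κ t * w t)) j (s - j) := by
      intro s _
      rw [Un_succ, Finset.sum_mul]
      apply Finset.sum_le_sum
      intro j hj
      rw [Finset.mem_range] at hj
      have e1 : s + 1 = (j + 1) + (s - j) := by omega
      have h2 := hw (j + 1) (s - j)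
      rw [← e1] at h2
      calc κ (j + 1) * Un κ (s - j) * w (s + 1) ≤ κ (j + 1) * Un κ (s - j) * (w (j + 1) * w (s - j)) := by
            gcongr
        _ = _ := by ring
    refine (Finset.sum_le_sum h1).trans ?_
    rw [← sum_tri N (fun j t => (κ (j + 1) * w (j + 1)) * (Un κ t * w t))]
    calc ∑ j ∈ Finset.range N, ∑ t ∈ Finset.range (N - j), (κ (j + 1) * w (j + 1)) * (Un κ t * w t)
        ≤ ∑ j ∈ Finset.range N, (κ (j + 1) * w (j + 1)) * R := by
          apply Finset.sum_le_sum
          intro j _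
          rw [← Finset.mul_sum]
          gcongr
          refine le_trans (Finset.sum_le_sum_of_subset ?_) ih
          intro t ht
          rw [Finset.mem_range] at ht ⊢
          omega
      _ ≤ ρ * R := by
          rw [← Finset.sum_mul]
          have := hρ N
          gcongr

lemma sum_Vn (κ w : ℕ → ℝ≥0∞) (hmono : Monotone w) (hw : ∀ m n, w (m + n) ≤ w m * w n) (R : ℝ≥0∞)
    (hR : ∀ N, ∑ s ∈ Finset.range N, Un κ s * w s ≤ R) (k n : ℕ) :
    ∑ a ∈ Finset.range n, Vn κ k a * w (a * k) ≤ k * (w k * R) := by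
  unfold Vn
  have h1 : ∀ a ∈ Finset.range n, (∑ e ∈ Finset.range k, ∑ r ∈ Finset.range k,
      (if e ≤ a * k + r then Un κ (a * k + r - e) else 0)) * w (a * k) ≤
      ∑ e ∈ Finset.range k, ∑ r ∈ Finset.range k,
      (if e ≤ a * k + r then (Un κ (a * k + r - e) * w (a * k + r - e)) * w k else 0) := by
    intro a _
    rw [Finset.sum_mul]
    apply Finset.sum_le_sum
    intro e he
    rw [Finset.sum_mul]
    apply Finset.sum_le_sum
    intro r _
    rw [Finset.mem_range] at he
    split_ifs with h
    · have h2 : w (a * k) ≤ w (a * k + r - e) * w k := by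
        calc w (a * k) ≤ w (a * k + r - e + e) := hmono (by omega)
          _ ≤ w (a * k + r - e) * w e := hw _ _
          _ ≤ w (a * k + r - e) * w k := by
            have := hmono he.le
            gcongr
      calc Un κ (a * k + r - e) * w (a * k) ≤ Un κ (a * k + r - e) * (w (a * k + r - e) * w k) := by
            gcongr
        _ = _ := by ring
    · simp
  refine (Finset.sum_le_sum h1).trans ?_
  rw [Finset.sum_comm]
  calc ∑ e ∈ Finset.range k, ∑ a ∈ Finset.range n, ∑ r ∈ Finset.range k,
        (if e ≤ a * k + r then (Un κ (a * k + r - e) * w (a * k + r - e)) * w k else 0)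
      ≤ ∑ e ∈ Finset.range k, w k * R := by
        apply Finset.sum_le_sum
        intro e _
        rw [← sum_cells k n (fun s => if e ≤ s then (Un κ (s - e) * w (s - e)) * w k else 0)]
        have h3 : ∑ s ∈ Finset.range (n * k), (if e ≤ s then (Un κ (s - e) * w (s - e)) * w k else 0) ≤
            ∑ t ∈ Finset.range (n * k), (Un κ t * w t) * w k := by
          rw [← Finset.sum_filter]
          have h4 : ∑ s ∈ (Finset.range (n * k)).filter (fun s => e ≤ s),
              (Un κ (s - e) * w (s - e)) * w k =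
              ∑ t ∈ ((Finset.range (n * k)).filter (fun s => e ≤ s)).image (fun s => s - e),
              (Un κ t * w t) * w k := by
            rw [Finset.sum_image]
            intro a ha b hb hab
            simp only [Finset.coe_filter, Finset.mem_range, Set.mem_setOf_eq] at ha hb
            simp only at hab
            omega
          rw [h4]
          apply Finset.sum_le_sum_of_subset
          intro t ht
          rw [Finset.mem_image] at ht
          obtain ⟨s, hs, rfl⟩ := ht
          rw [Finset.mem_filter, Finset.mem_range] at hs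
          rw [Finset.mem_range]
          omega
        refine h3.trans ?_
        rw [← Finset.sum_mul, mul_comm]
        have := hR (n * k)
        gcongr
    _ = k * (w k * R) := by
        rw [Finset.sum_const, Finset.card_range, nsmul_eq_mul]

/-- Hoelder for sums of powers -/
lemma holder_sum (V w : ℕ → ℝ≥0∞) (hw0 : ∀ a, w a ≠ 0) (hwt : ∀ a, w a ≠ ∞) (γ : ℝ) (h0 : 0 < γ)
    (h1 : γ < 1) (n : ℕ) :
    ∑ a ∈ Finset.range n, (V a) ^ γ ≤ (∑ a ∈ Finset.range n, V a * w a) ^ γ *
      (∑ a ∈ Finset.range n, (w a) ^ (-(γ / (1 - γ)))) ^ (1 - γ) := by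
  have hpq : (1 / γ).HolderConjugate (1 / (1 - γ)) := by
    rw [Real.holderConjugate_iff]
    refine ⟨?_, ?_⟩
    · rw [lt_div_iff₀ h0]; linarith
    · rw [one_div, one_div, inv_inv, inv_inv]; ring
  have h := ENNReal.inner_le_Lp_mul_Lq (Finset.range n) (fun a => (V a * w a) ^ γ)
    (fun a => (w a) ^ (-γ)) hpq
  have e1 : ∀ a, (V a * w a) ^ γ * (w a) ^ (-γ) = (V a) ^ γ := by
    intro a
    rw [ENNReal.mul_rpow_of_nonneg _ _ h0.le, mul_assoc, ← ENNReal.rpow_add _ _ (hw0 a) (hwt a)]
    simp
  have e2 : ∀ a, ((V a * w a) ^ γ) ^ (1 / γ) = V a * w a := by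
    intro a
    rw [← ENNReal.rpow_mul, mul_one_div_cancel h0.ne', ENNReal.rpow_one]
  have e3 : ∀ a, ((w a) ^ (-γ)) ^ (1 / (1 - γ)) = (w a) ^ (-(γ / (1 - γ))) := by
    intro a
    rw [← ENNReal.rpow_mul]
    congr 1
    ring
  simp only [e1, e2, e3] at h
  rw [one_div_one_div, one_div_one_div] at h
  exact h

end Pool.Agent.H96.Cop
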