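import Mathlib
import Pool.Agent.H96.Cop.Est2
import Pool.Agent.H96.Cop.Sum

/-!
# The two sums of the fractional moment criterion
-/

open MeasureTheory ProbabilityTheory Filter Topology
open scoped ENNReal

namespace Pool.Agent.H96.Cop

open Pool.Agent.H95 Pool.Agent.H95.Cop

/-- the list of requirements on the parameters -/
structure Good (K : PMF ℕ) (α c σ ε b κ : ℝ) (n0 k : ℕ) : Prop where
  K0 : K 0 = 0
  α0 : 0 < α
  α1 : α ≤ 1 / 40
  c0 : 0 < c
  low : ∀ n : ℕ, n0 ≤ n → c / 2 * (n : ℝ) ^ (-(1 + α)) ≤ kk K n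
  up : ∀ n : ℕ, n0 ≤ n → kk K n ≤ 2 * c * (n : ℝ) ^ (-(1 + α))
  k1 : 1 ≤ k
  kn : n0 ≤ k
  kn' : (n0 : ℝ) ≤ c * (k : ℝ) ^ (1 - α)
  σ0 : 0 < σ
  σα : σ ≤ α / 2
  σα2 : α ^ 2 ≤ σ
  ε0 : 0 < ε
  ε1 : ε ≤ 1
  εeq : ε ^ (α - σ / 2) = σ / (64 * α)
  b0 : 0 ≤ b
  bk : b * k ≤ 3 * α
  κ0 : 0 ≤ κ
  κk : σ / 4 ≤ κ * k

lemma kh_eq (K : PMF ℕ) (k : ℕ) (b : ℝ) (n : ℕ) :
    kh K k (ENNReal.ofReal (Real.exp b)) n = ENNReal.ofReal (khr K k b n) := by
  unfold kh khr pk
  have h0 := kk_nonneg K n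
  split_ifs
  · rw [ENNReal.ofReal_mul h0, div_eq_inv_mul, ENNReal.ofReal_mul (by norm_num),
      ENNReal.ofReal_add (by norm_num) (Real.exp_pos _).le, ENNReal.ofReal_one,
      ENNReal.ofReal_inv_of_pos (by norm_num), ← ENNReal.ofReal_pow (Real.exp_pos _).le,
      ← Real.exp_nat_mul, mul_comm b (n : ℝ)]
    norm_num
  · rw [div_eq_mul_inv, ENNReal.ofReal_mul h0, ENNReal.ofReal_inv_of_pos (by norm_num)]
    norm_num

lemma wr_zero (β ε : ℝ) (k : ℕ) : wr β ε k 0 = 1 := by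
  unfold wr; simp

lemma wr_mul {β ε : ℝ} (hβ : 0 ≤ β) (hε : 0 ≤ ε) (k m n : ℕ) :
    wr β ε k (m + n) ≤ wr β ε k m * wr β ε k n := by
  unfold wr
  rw [← Real.mul_rpow (by positivity) (by positivity)]
  apply Real.rpow_le_rpow (by positivity) _ hβ
  push_cast
  have h1 : 0 ≤ ε * ((m : ℝ) / k) := by positivity
  have h2 : 0 ≤ ε * ((n : ℝ) / k) := by positivity
  have e : ε * (((m : ℝ) + n) / k) = ε * ((m : ℝ) / k) + ε * ((n : ℝ) / k) := by ring
  rw [e]
  nlinarith [mul_nonneg h1 h2]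

lemma wr_mono {β ε : ℝ} (hβ : 0 ≤ β) (hε : 0 ≤ ε) (k : ℕ) : Monotone (wr β ε k) := by
  intro m n hmn
  unfold wr
  apply Real.rpow_le_rpow (by positivity) _ hβ
  have : (m : ℝ) ≤ n := by exact_mod_cast hmn
  gcongr

lemma sum_eps {ε s : ℝ} (hε : 0 < ε) (hs : 0 < s) (n : ℕ) :
    ∑ a ∈ Finset.range n, (1 + ε * (a : ℝ)) ^ (-(1 + s)) ≤ 1 + 1 / (ε * s) := by
  have key : ∀ n : ℕ, ∑ a ∈ Finset.range (n + 1), (1 + ε * (a : ℝ)) ^ (-(1 + s)) ≤
      1 + (1 - (1 + ε * (n : ℝ)) ^ (-s)) / (ε * s) := by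
    intro n
    induction n with
    | zero => simp
    | succ n ih =>
      rw [Finset.sum_range_succ]
      have h := tele (s := s) (x := 1 + ε * ((n : ℝ) + 1)) (y := 1 + ε * (n : ℝ)) hs.le
        (by positivity) (by linarith)
      have e : s * (1 + ε * ((n : ℝ) + 1) - (1 + ε * (n : ℝ))) * (1 + ε * ((n : ℝ) + 1)) ^ (-(1 + s)) =
          (1 + ε * ((n : ℝ) + 1)) ^ (-(1 + s)) * (ε * s) := by ring
      rw [e] at h
      have hεs : 0 < ε * s := by positivity
      have h2 := (le_div_iff₀ hεs).mpr h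
      push_cast
      have e2 : (1 - (1 + ε * ((n : ℝ) + 1)) ^ (-s)) / (ε * s) =
          (1 - (1 + ε * (n : ℝ)) ^ (-s)) / (ε * s) +
          ((1 + ε * (n : ℝ)) ^ (-s) - (1 + ε * ((n : ℝ) + 1)) ^ (-s)) / (ε * s) := by
        rw [← add_div]; congr 1; ring
      rw [e2]
      linarith
  have hεs : 0 < ε * s := by positivity
  cases n with
  | zero => simp; positivity
  | succ n =>
    refine (key n).trans ?_
    have h1 : 0 ≤ (1 + ε * (n : ℝ)) ^ (-s) := Real.rpow_nonneg (by positivity) _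
    have h2 : (1 - (1 + ε * (n : ℝ)) ^ (-s)) / (ε * s) ≤ 1 / (ε * s) :=
      div_le_div_of_nonneg_right (by linarith) hεs.le
    linarith

section

variable {K : PMF ℕ} {α c σ ε b κ : ℝ} {n0 k : ℕ}

/-- fractional exponent -/
noncomputable def gam (α σ : ℝ) : ℝ := (1 + σ) / (1 + α)

lemma gam_pos (h : Good K α c σ ε b κ n0 k) : 0 < gam α σ := by
  have := h.α0; have := h.σ0
  unfold gam; positivity

lemma one_sub_gam (h : Good K α c σ ε b κ n0 k) : 1 - gam α σ = (α - σ) / (1 + α) := by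
  have := h.α0
  unfold gam; field_simp; ring

lemma gam_lt_one (h : Good K α c σ ε b κ n0 k) : gam α σ < 1 := by
  have h1 := one_sub_gam h
  have h2 := h.α0
  have h3 := h.σα
  have : 0 < (α - σ) / (1 + α) := div_pos (by linarith) (by linarith)
  linarith

lemma one_sub_gam_le (h : Good K α c σ ε b κ n0 k) : 1 - gam α σ ≤ α - σ := by
  have h2 := h.α0
  have h3 := h.σα
  rw [one_sub_gam h]
  exact div_le_self (by linarith) (by linarith)

/-- weighted sum of the masses -/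
lemma sumV (h : Good K α c σ ε b κ n0 k) (n : ℕ) :
    ∑ a ∈ Finset.range n, Vn (kh K k (ENNReal.ofReal (Real.exp b))) k a *
      ENNReal.ofReal (wr (α - σ / 2) ε k (a * k)) ≤
      ENNReal.ofReal (32 * α * (k : ℝ) ^ (1 + α) / c) := by
  have hk0 : (0:ℝ) < k := by exact_mod_cast h.k1
  have hα := h.α0
  have hc := h.c0
  have hσ := h.σ0
  have hσα := h.σα
  have hβ0 : 0 < α - σ / 2 := by linarith
  set β := α - σ / 2 with hβ
  set Q := c * (k : ℝ) ^ (-α) / (16 * α) with hQ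
  have hQ0 : 0 < Q := by
    have := Real.rpow_pos_of_pos hk0 (-α)
    rw [hQ]; positivity
  have hρ := rho_bound K h.K0 α c hα h.α1 hc n0 h.low h.up k h.k1 h.kn h.kn' σ ε b hσ hσα h.ε0
    h.ε1 h.εeq h.b0 h.bk
  have hQ1 : Q ≤ 1 := by
    have := hρ 0
    simp only [Finset.range_zero, Finset.sum_empty] at this
    rw [hQ]; linarith
  set w : ℕ → ℝ≥0∞ := fun m => ENNReal.ofReal (wr β ε k m) with hw
  have hwmono : Monotone w := fun m n hmn => ENNReal.ofReal_le_ofReal (wr_mono hβ0.le h.ε0.le k hmn)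
  have hwmul : ∀ m n, w (m + n) ≤ w m * w n := by
    intro m n
    simp only [hw]
    rw [← ENNReal.ofReal_mul (wr_pos h.ε0.le k m).le]
    exact ENNReal.ofReal_le_ofReal (wr_mul hβ0.le h.ε0.le k m n)
  have hw0 : w 0 ≤ 1 := by simp only [hw]; rw [wr_zero]; simp
  have hρ' : ∀ N, ∑ j ∈ Finset.range N, kh K k (ENNReal.ofReal (Real.exp b)) (j + 1) * w (j + 1) ≤
      ENNReal.ofReal (1 - Q) := by
    intro N
    have e1 : ∀ j ∈ Finset.range N, kh K k (ENNReal.ofReal (Real.exp b)) (j + 1) * w (j + 1) =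
        ENNReal.ofReal (khr K k b (j + 1) * wr β ε k (j + 1)) := by
      intro j _
      rw [kh_eq, ENNReal.ofReal_mul (khr_nonneg K k b _)]
    rw [Finset.sum_congr rfl e1, ← ENNReal.ofReal_sum_of_nonneg (fun j _ =>
      mul_nonneg (khr_nonneg K k b _) (wr_pos h.ε0.le k _).le)]
    exact ENNReal.ofReal_le_ofReal (hρ N)
  have hR : 1 + ENNReal.ofReal (1 - Q) * ENNReal.ofReal (1 / Q) ≤ ENNReal.ofReal (1 / Q) := by
    rw [← ENNReal.ofReal_mul (by linarith), ← ENNReal.ofReal_one,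
      ← ENNReal.ofReal_add (by norm_num) (mul_nonneg (by linarith) (by positivity))]
    apply ENNReal.ofReal_le_ofReal
    apply le_of_eq
    field_simp
    ring
  have h1 := sum_Un (kh K k (ENNReal.ofReal (Real.exp b))) w hw0 hwmul _ _ hρ' hR
  have h2 := sum_Vn (kh K k (ENNReal.ofReal (Real.exp b))) w hwmono hwmul _ h1 k n
  refine h2.trans ?_
  have h3 : w k ≤ ENNReal.ofReal 2 := by
    apply ENNReal.ofReal_le_ofReal
    unfold wr
    rw [div_self hk0.ne', mul_one]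
    have h4 : (1 + ε) ^ β ≤ (2:ℝ) ^ β := Real.rpow_le_rpow (by have := h.ε0; positivity)
      (by have := h.ε1; linarith) hβ0.le
    have h5 : (2:ℝ) ^ β ≤ 2 ^ (1:ℝ) := Real.rpow_le_rpow_of_exponent_le (by norm_num)
      (by have := h.α1; linarith)
    rw [Real.rpow_one] at h5
    linarith
  have h4 : (k : ℝ≥0∞) = ENNReal.ofReal (k : ℝ) := by simp
  calc (k : ℝ≥0∞) * (w k * ENNReal.ofReal (1 / Q)) ≤ ENNReal.ofReal (k : ℝ) *
        (ENNReal.ofReal 2 * ENNReal.ofReal (1 / Q)) := by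
        rw [h4]; gcongr
    _ = ENNReal.ofReal ((k : ℝ) * (2 * (1 / Q))) := by
        rw [ENNReal.ofReal_mul hk0.le, ENNReal.ofReal_mul (by norm_num)]
    _ ≤ _ := by
        apply ENNReal.ofReal_le_ofReal
        apply le_of_eq
        rw [hQ, Real.rpow_neg hk0.le, Real.rpow_add hk0, Real.rpow_one]
        have := Real.rpow_pos_of_pos hk0 α
        field_simp
        ring

lemma gam_ratio (h : Good K α c σ ε b κ n0 k) :
    1 + σ / (2 * α) ≤ (α - σ / 2) * (gam α σ / (1 - gam α σ)) := by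
  have hα := h.α0
  have hσ := h.σ0
  have hσα := h.σα
  rw [one_sub_gam h]
  unfold gam
  have h1 : (1 + σ) / (1 + α) / ((α - σ) / (1 + α)) = (1 + σ) / (α - σ) := by
    have : (α - σ) ≠ 0 := by
      have : 0 < α - σ := by linarith
      exact this.ne'
    field_simp
  rw [h1]
  have h2 : 0 < α - σ := by linarith
  rw [mul_div_assoc', le_div_iff₀ h2]
  have e : (1 + σ / (2 * α)) * (α - σ) = α - σ / 2 - σ ^ 2 / (2 * α) := by
    field_simp; ring
  rw [e]
  have h3 : 0 ≤ σ ^ 2 / (2 * α) := by positivity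
  have h4 : 0 ≤ (α - σ / 2) * σ := mul_nonneg (by linarith) hσ.le
  nlinarith

/-- the second factor of the Hoelder inequality -/
lemma sum_w (h : Good K α c σ ε b κ n0 k) (n : ℕ) :
    (∑ a ∈ Finset.range n, (ENNReal.ofReal (wr (α - σ / 2) ε k (a * k))) ^
      (-(gam α σ / (1 - gam α σ)))) ^ (1 - gam α σ) ≤ ENNReal.ofReal (64 * α / σ * 4) := by
  have hk0 : (0:ℝ) < k := by exact_mod_cast h.k1
  have hα := h.α0
  have hσ := h.σ0
  have hσα := h.σα
  have hε := h.ε0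
  have hβ0 : 0 < α - σ / 2 := by linarith
  have hg0 := gam_pos h
  have hg1 := gam_lt_one h
  set γ := gam α σ with hγ
  have hterm : ∀ a ∈ Finset.range n, (ENNReal.ofReal (wr (α - σ / 2) ε k (a * k))) ^
      (-(γ / (1 - γ))) ≤ ENNReal.ofReal ((1 + ε * (a : ℝ)) ^ (-(1 + σ / (2 * α)))) := by
    intro a _
    rw [ENNReal.ofReal_rpow_of_pos (wr_pos hε.le k _)]
    apply ENNReal.ofReal_le_ofReal
    unfold wr
    have e1 : ((a * k : ℕ) : ℝ) / k = a := by push_cast; field_simp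
    rw [e1, ← Real.rpow_mul (by positivity)]
    apply Real.rpow_le_rpow_of_exponent_le
    · have : 0 ≤ ε * (a : ℝ) := by positivity
      linarith
    · have := gam_ratio h
      rw [← hγ] at this
      linarith
  have h1 : ∑ a ∈ Finset.range n, (ENNReal.ofReal (wr (α - σ / 2) ε k (a * k))) ^
      (-(γ / (1 - γ))) ≤ ENNReal.ofReal (1 + 1 / (ε * (σ / (2 * α)))) := by
    refine (Finset.sum_le_sum hterm).trans ?_
    rw [← ENNReal.ofReal_sum_of_nonneg (fun a _ => Real.rpow_nonneg (by positivity) _)]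
    exact ENNReal.ofReal_le_ofReal (sum_eps hε (by positivity) n)
  refine (ENNReal.rpow_le_rpow h1 (by linarith)).trans ?_
  rw [ENNReal.ofReal_rpow_of_pos (by positivity)]
  apply ENNReal.ofReal_le_ofReal
  have hασ : 1 ≤ α / σ := by rw [le_div_iff₀ hσ]; linarith
  have hε1 : 1 ≤ 1 / ε := by rw [le_div_iff₀ hε]; have := h.ε1; linarith
  have h2 : 1 + 1 / (ε * (σ / (2 * α))) ≤ (1 / ε) * (3 * (α / σ)) := by
    have e1 : 1 / (ε * (σ / (2 * α))) = (1 / ε) * (2 * (α / σ)) := by field_simp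
    rw [e1]
    nlinarith
  have h3 : (1 + 1 / (ε * (σ / (2 * α)))) ^ (1 - γ) ≤ ((1 / ε) * (3 * (α / σ))) ^ (1 - γ) :=
    Real.rpow_le_rpow (by positivity) h2 (by linarith)
  refine h3.trans ?_
  rw [Real.mul_rpow (by positivity) (by positivity)]
  have h1g := one_sub_gam_le h
  rw [← hγ] at h1g
  have h4 : (1 / ε) ^ (1 - γ) ≤ 64 * α / σ := by
    have h5 : (1 / ε) ^ (1 - γ) ≤ (1 / ε) ^ (α - σ / 2) :=
      Real.rpow_le_rpow_of_exponent_le hε1 (by linarith)
    refine h5.trans (le_of_eq ?_)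
    rw [Real.div_rpow (by norm_num) hε.le, Real.one_rpow, h.εeq]
    field_simp
  have h5 : (3 * (α / σ)) ^ (1 - γ) ≤ 4 := by
    have h6 : (3 * (α / σ)) ^ (1 - γ) ≤ (3 * (α / σ)) ^ α :=
      Real.rpow_le_rpow_of_exponent_le (by linarith) (by linarith)
    have h7 : 3 * (α / σ) ≤ 1 + (3 / α - 1) := by
      have h8 : α / σ ≤ 1 / α := by
        rw [div_le_div_iff₀ hσ hα]
        have := h.σα2
        nlinarith
      have e : 3 / α = 3 * (1 / α) := by ring
      rw [e]; linarith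
    have h8 : (3 * (α / σ)) ^ α ≤ (1 + (3 / α - 1)) ^ α := Real.rpow_le_rpow (by positivity) h7 hα.le
    have h9 : (1 + (3 / α - 1)) ^ α ≤ 1 + α * (3 / α - 1) := by
      apply rpow_one_add_le_one_add_mul_self _ hα.le (by have := h.α1; linarith)
      have : 0 < 3 / α := by positivity
      linarith
    have h10 : α * (3 / α - 1) = 3 - α := by field_simp
    linarith
  exact mul_le_mul h4 h5 (Real.rpow_nonneg (by positivity) _) (by positivity)

/-- first sum -/
lemma sumF (h : Good K α c σ ε b κ n0 k) (n : ℕ) :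
    ∑ a ∈ Finset.range n, ((ENNReal.ofReal (Real.exp b)) ^ (2 * k) *
      Vn (kh K k (ENNReal.ofReal (Real.exp b))) k a) ^ gam α σ ≤
      ENNReal.ofReal (2 * (32 * α * (k : ℝ) ^ (1 + α) / c) ^ gam α σ * (64 * α / σ * 4)) := by
  have hk0 : (0:ℝ) < k := by exact_mod_cast h.k1
  have hα := h.α0
  have hc := h.c0
  have hσ := h.σ0
  have hg0 := gam_pos h
  have hg1 := gam_lt_one h
  set γ := gam α σ with hγ
  simp_rw [ENNReal.mul_rpow_of_nonneg _ _ hg0.le]
  rw [← Finset.mul_sum]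
  have h1 : ((ENNReal.ofReal (Real.exp b)) ^ (2 * k)) ^ γ ≤ ENNReal.ofReal 2 := by
    rw [← ENNReal.ofReal_pow (Real.exp_pos _).le, ← Real.exp_nat_mul,
      ENNReal.ofReal_rpow_of_pos (Real.exp_pos _), ← Real.exp_mul]
    apply ENNReal.ofReal_le_ofReal
    have h2 : ((2 * k : ℕ) : ℝ) * b * γ ≤ 6 * α := by
      have h3 := h.bk
      have h4 : 0 ≤ b * k := mul_nonneg h.b0 hk0.le
      push_cast
      have h5 : 2 * (k : ℝ) * b * γ ≤ 2 * (k : ℝ) * b * 1 :=
        mul_le_mul_of_nonneg_left hg1.le (by nlinarith)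
      linarith
    have h3 : 0 ≤ ((2 * k : ℕ) : ℝ) * b * γ := by have := h.b0; positivity
    have h4 := exp_le_one_add_two h3 (by have := h.α1; linarith)
    have := h.α1
    linarith
  have h2 := holder_sum (Vn (kh K k (ENNReal.ofReal (Real.exp b))) k)
    (fun a => ENNReal.ofReal (wr (α - σ / 2) ε k (a * k)))
    (fun a => by
      have := wr_pos (β := α - σ / 2) h.ε0.le k (a * k)
      simpa using this)
    (fun a => ENNReal.ofReal_ne_top) γ hg0 hg1 n
  have h3 := ENNReal.rpow_le_rpow (sumV h n) hg0.le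
  have h4 := sum_w h n
  rw [← hγ] at h4
  rw [ENNReal.ofReal_rpow_of_pos (by positivity)] at h3
  have h5 := h2.trans (mul_le_mul' h3 h4)
  refine (mul_le_mul' h1 h5).trans (le_of_eq ?_)
  rw [← ENNReal.ofReal_mul (by positivity), ← ENNReal.ofReal_mul (by norm_num)]
  congr 1
  ring

end

end Pool.Agent.H96.Cop
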