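import Mathlib
import Pool.Agent.H96.Cop.Sum2

/-!
# The sum over the long excursions below the interface
-/

open MeasureTheory ProbabilityTheory Filter Topology
open scoped ENNReal

namespace Pool.Agent.H96.Cop

open Pool.Agent.H95 Pool.Agent.H95.Cop

/-- bound of the weight of an excursion of about `j` cells -/
noncomputable def Gj (c α : ℝ) (k j : ℕ) : ℝ := c * (((max (j - 1) 1 * k : ℕ) : ℝ)) ^ (-(1 + α))

section

variable {K : PMF ℕ} {α c σ ε b κ : ℝ} {n0 k : ℕ}

lemma hG_of (h : Good K α c σ ε b κ n0 k) (j m : ℕ) (hj : 1 ≤ j) (hkm : k < m)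
    (hjm : (j - 1) * k < m) : pk K m * 2⁻¹ ≤ ENNReal.ofReal (Gj c α k j) := by
  have hα := h.α0
  have hc := h.c0
  unfold pk Gj
  have e : (2⁻¹ : ℝ≥0∞) = ENNReal.ofReal (1 / 2) := by
    rw [one_div, ENNReal.ofReal_inv_of_pos (by norm_num)]; norm_num
  rw [e, ← ENNReal.ofReal_mul (kk_nonneg K m)]
  apply ENNReal.ofReal_le_ofReal
  have h1 := h.up m (h.kn.trans hkm.le)
  have h2 : max (j - 1) 1 * k ≤ m := by
    rcases le_total (j - 1) 1 with h3 | h3
    · rw [max_eq_right h3, one_mul]; exact hkm.le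
    · rw [max_eq_left h3]; exact hjm.le
  have h3 : 0 < max (j - 1) 1 * k := Nat.mul_pos (by have := le_max_right (j - 1) 1; omega)
    (by have := h.k1; omega)
  have h4 : (m : ℝ) ^ (-(1 + α)) ≤ (((max (j - 1) 1 * k : ℕ) : ℝ)) ^ (-(1 + α)) := by
    apply Real.rpow_le_rpow_of_nonpos (by exact_mod_cast h3) (by exact_mod_cast h2) (by linarith)
  have h5 := mul_le_mul_of_nonneg_left h4 hc.le
  linarith

/-- logarithmic series -/
noncomputable def hl (x : ℝ) (i : ℕ) : ℝ := x ^ i / (max i 1 : ℕ)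

lemma sum_hl {x : ℝ} (hx0 : 0 ≤ x) (hx1 : x < 1) (n : ℕ) :
    ∑ i ∈ Finset.range n, hl x i ≤ 1 + -Real.log (1 - x) := by
  have hs := Real.hasSum_pow_div_log_of_abs_lt_one (x := x) (by rw [abs_of_nonneg hx0]; exact hx1)
  have hnn : ∀ i, 0 ≤ hl x i := fun i => by unfold hl; positivity
  have h1 : ∑ i ∈ Finset.range n, hl x i ≤ ∑ i ∈ Finset.range (n + 1), hl x i := by
    apply Finset.sum_le_sum_of_subset_of_nonneg
    · intro i hi
      rw [Finset.mem_range] at hi ⊢
      omega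
    · intro i _ _
      exact hnn i
  refine h1.trans ?_
  rw [Finset.sum_range_succ', add_comm]
  have h2 : hl x 0 = 1 := by unfold hl; simp
  rw [h2]
  have h3 : ∑ i ∈ Finset.range n, hl x (i + 1) ≤ -Real.log (1 - x) := by
    have h4 : ∀ i ∈ Finset.range n, hl x (i + 1) = x ^ (i + 1) / ((i : ℝ) + 1) := by
      intro i _
      unfold hl
      rw [max_eq_left (by omega)]
      push_cast
      rfl
    rw [Finset.sum_congr rfl h4]
    exact sum_le_hasSum _ (fun i _ => by positivity) hs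
  linarith

lemma log_bound {σ : ℝ} (h0 : 0 < σ) (h1 : σ ≤ 4) :
    -Real.log (1 - Real.exp (-(σ / 4))) ≤ Real.log (8 / σ) := by
  have h2 : σ / 8 ≤ 1 - Real.exp (-(σ / 4)) := by
    have h3 := Real.abs_exp_sub_one_sub_id_le (x := -(σ / 4)) (by
      rw [abs_neg, abs_of_pos (by positivity)]; linarith)
    rw [abs_le] at h3
    have h4 := h3.2
    have h5 : (σ / 4) ^ 2 ≤ σ / 4 := by nlinarith
    -- exp(-y) ≤ 1 / (1 + y)
    have h6 : Real.exp (-(σ / 4)) ≤ 1 / (1 + σ / 4) := by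
      rw [Real.exp_neg, ← one_div]
      apply one_div_le_one_div_of_le (by positivity)
      have := Real.add_one_le_exp (σ / 4)
      linarith
    have h7 : 1 / (1 + σ / 4) ≤ 1 - σ / 8 := by
      rw [div_le_iff₀ (by positivity)]
      nlinarith
    linarith
  have h3 : Real.log (σ / 8) ≤ Real.log (1 - Real.exp (-(σ / 4))) :=
    Real.log_le_log (by positivity) h2
  have h4 : Real.log (8 / σ) = -Real.log (σ / 8) := by
    rw [← Real.log_inv]
    congr 1
    rw [inv_div]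
  linarith

/-- second sum -/
lemma sumG (h : Good K α c σ ε b κ n0 k) (n : ℕ) :
    ∑ j ∈ Finset.Ico 1 n, (ENNReal.ofReal (Gj c α k j)) ^ gam α σ *
      (ENNReal.ofReal (Real.exp (-κ))) ^ ((j - 1) * k) ≤
      ENNReal.ofReal (c ^ gam α σ * (k : ℝ) ^ (-(1 + σ)) * (1 + Real.log (8 / σ))) := by
  have hk0 : (0:ℝ) < k := by exact_mod_cast h.k1
  have hα := h.α0
  have hα1 := h.α1
  have hc := h.c0
  have hσ := h.σ0
  have hσα := h.σα
  have hg0 := gam_pos h
  set γ := gam α σ with hγ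
  set x := Real.exp (-(σ / 4)) with hx
  have hx0 : 0 < x := Real.exp_pos _
  have hx1 : x < 1 := by rw [hx, Real.exp_lt_one_iff]; linarith
  have hterm : ∀ j ∈ Finset.Ico 1 n, (ENNReal.ofReal (Gj c α k j)) ^ γ *
      (ENNReal.ofReal (Real.exp (-κ))) ^ ((j - 1) * k) ≤
      ENNReal.ofReal (c ^ γ * (k : ℝ) ^ (-(1 + σ)) * hl x (j - 1)) := by
    intro j hj
    rw [Finset.mem_Ico] at hj
    have hm0 : (0:ℝ) < ((max (j - 1) 1 : ℕ) : ℝ) := by
      have : 0 < max (j - 1) 1 := by have := le_max_right (j - 1) 1; omega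
      exact_mod_cast this
    have hm1 : (1:ℝ) ≤ ((max (j - 1) 1 : ℕ) : ℝ) := by exact_mod_cast le_max_right (j - 1) 1
    have hGpos : 0 < Gj c α k j := by
      unfold Gj
      apply mul_pos hc
      apply Real.rpow_pos_of_pos
      push_cast
      push_cast at hm0
      positivity
    rw [ENNReal.ofReal_rpow_of_pos hGpos, ← ENNReal.ofReal_pow (Real.exp_pos _).le,
      ← ENNReal.ofReal_mul (Real.rpow_nonneg hGpos.le _)]
    apply ENNReal.ofReal_le_ofReal
    have e1 : (Gj c α k j) ^ γ = c ^ γ * (k : ℝ) ^ (-(1 + σ)) *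
        ((max (j - 1) 1 : ℕ) : ℝ) ^ (-(1 + σ)) := by
      unfold Gj
      rw [Real.mul_rpow hc.le (Real.rpow_nonneg (Nat.cast_nonneg _) _),
        ← Real.rpow_mul (Nat.cast_nonneg _)]
      have e2 : -(1 + α) * γ = -(1 + σ) := by
        rw [hγ]; unfold gam; field_simp
      rw [e2]
      rw [Nat.cast_mul, Real.mul_rpow hm0.le hk0.le]
      ring
    have e2 : ((max (j - 1) 1 : ℕ) : ℝ) ^ (-(1 + σ)) ≤ 1 / ((max (j - 1) 1 : ℕ) : ℝ) := by
      rw [Real.rpow_neg hm0.le, ← one_div]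
      apply one_div_le_one_div_of_le hm0
      calc ((max (j - 1) 1 : ℕ) : ℝ) = ((max (j - 1) 1 : ℕ) : ℝ) ^ (1:ℝ) := (Real.rpow_one _).symm
        _ ≤ _ := Real.rpow_le_rpow_of_exponent_le hm1 (by linarith)
    have e3 : Real.exp (-κ) ^ ((j - 1) * k) ≤ x ^ (j - 1) := by
      rw [hx, ← Real.exp_nat_mul, ← Real.exp_nat_mul]
      apply Real.exp_le_exp.mpr
      have h1 := h.κk
      push_cast
      have h2 : (0:ℝ) ≤ ((j - 1 : ℕ) : ℝ) := Nat.cast_nonneg _
      nlinarith [mul_le_mul_of_nonneg_left h1 h2]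
    rw [e1]
    unfold hl
    have hcg : 0 < c ^ γ := Real.rpow_pos_of_pos hc _
    have hkg : 0 < (k : ℝ) ^ (-(1 + σ)) := Real.rpow_pos_of_pos hk0 _
    calc c ^ γ * (k : ℝ) ^ (-(1 + σ)) * ((max (j - 1) 1 : ℕ) : ℝ) ^ (-(1 + σ)) *
          Real.exp (-κ) ^ ((j - 1) * k)
        ≤ c ^ γ * (k : ℝ) ^ (-(1 + σ)) * (1 / ((max (j - 1) 1 : ℕ) : ℝ)) * x ^ (j - 1) := by
          gcongr
      _ = _ := by ring
  refine (Finset.sum_le_sum hterm).trans ?_
  rw [← ENNReal.ofReal_sum_of_nonneg]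
  · apply ENNReal.ofReal_le_ofReal
    rw [← Finset.mul_sum]
    apply mul_le_mul_of_nonneg_left
    · have h1 : ∑ j ∈ Finset.Ico 1 n, hl x (j - 1) = ∑ i ∈ Finset.range (n - 1), hl x i := by
        rw [Finset.sum_Ico_eq_sum_range]
        apply Finset.sum_congr rfl
        intro i _
        rw [Nat.add_sub_cancel_left]
      rw [h1]
      refine (sum_hl hx0.le hx1 (n - 1)).trans ?_
      have := log_bound hσ (by linarith : σ ≤ 4)
      rw [← hx] at this
      linarith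
    · positivity
  · intro j _
    have : 0 ≤ hl x (j - 1) := by unfold hl; positivity
    positivity

/-- the product of the two sums -/
lemma prod_bound (h : Good K α c σ ε b κ n0 k)
    (hσ : 65536 * 2 * (α ^ 2 / σ) * (1 + Real.log (8 / σ)) ≤ 2) :
    2 * (32 * α * (k : ℝ) ^ (1 + α) / c) ^ gam α σ * (64 * α / σ * 4) *
      (c ^ gam α σ * (k : ℝ) ^ (-(1 + σ)) * (1 + Real.log (8 / σ))) ≤ 1 / 2 := by
  have hk0 : (0:ℝ) < k := by exact_mod_cast h.k1
  have hα := h.α0
  have hα1 := h.α1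
  have hc := h.c0
  have hσ0 := h.σ0
  have hσα := h.σα
  have hg0 := gam_pos h
  have hg1 := gam_lt_one h
  have h1g := one_sub_gam_le h
  set γ := gam α σ with hγ
  have hlog : 0 ≤ Real.log (8 / σ) := Real.log_nonneg (by rw [le_div_iff₀ hσ0]; linarith)
  have e1 : (32 * α * (k : ℝ) ^ (1 + α) / c) ^ γ = (32 * α) ^ γ * (k : ℝ) ^ (1 + σ) / c ^ γ := by
    rw [Real.div_rpow (by positivity) hc.le, Real.mul_rpow (by positivity) (by positivity),
      ← Real.rpow_mul hk0.le]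
    congr 3
    rw [hγ]; unfold gam; field_simp
  have e2 : (32 * α) ^ γ ≤ 64 * α := by
    rw [Real.mul_rpow (by norm_num) hα.le]
    have h1 : (32:ℝ) ^ γ ≤ 32 := by
      calc (32:ℝ) ^ γ ≤ 32 ^ (1:ℝ) := Real.rpow_le_rpow_of_exponent_le (by norm_num) hg1.le
        _ = 32 := Real.rpow_one _
    have h2 : α ^ γ ≤ 2 * α := by
      have h3 : α ^ γ = α * (1 / α) ^ (1 - γ) := by
        rw [Real.div_rpow (by norm_num) hα.le, Real.one_rpow]
        have h4 : α ^ γ * α ^ (1 - γ) = α := by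
          rw [← Real.rpow_add hα]; simp
        have h5 : 0 < α ^ (1 - γ) := Real.rpow_pos_of_pos hα _
        field_simp
        linarith
      rw [h3]
      have hinv : 1 ≤ 1 / α := by rw [le_div_iff₀ hα]; linarith
      have h4 : (1 / α) ^ (1 - γ) ≤ (1 / α) ^ α :=
        Real.rpow_le_rpow_of_exponent_le hinv (by linarith)
      have h5 : (1 / α) ^ α ≤ 2 := by
        have h6 := rpow_one_add_le_one_add_mul_self (s := 1 / α - 1) (by linarith) hα.le
          (by linarith : α ≤ 1)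
        have e : 1 + (1 / α - 1) = 1 / α := by ring
        rw [e] at h6
        have e' : α * (1 / α - 1) = 1 - α := by field_simp
        rw [e'] at h6
        linarith
      nlinarith
    have h3 : 0 ≤ α ^ γ := Real.rpow_nonneg hα.le _
    have h4 : 0 ≤ (32:ℝ) ^ γ := Real.rpow_nonneg (by norm_num) _
    calc (32:ℝ) ^ γ * α ^ γ ≤ 32 * (2 * α) := mul_le_mul h1 h2 h3 (by norm_num)
      _ = 64 * α := by ring
  rw [e1]
  have hcg : 0 < c ^ γ := Real.rpow_pos_of_pos hc _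
  have hkg : 0 < (k : ℝ) ^ (1 + σ) := Real.rpow_pos_of_pos hk0 _
  have e3 : 2 * ((32 * α) ^ γ * (k : ℝ) ^ (1 + σ) / c ^ γ) * (64 * α / σ * 4) *
      (c ^ γ * (k : ℝ) ^ (-(1 + σ)) * (1 + Real.log (8 / σ))) =
      2 * (32 * α) ^ γ * (64 * α / σ * 4) * (1 + Real.log (8 / σ)) := by
    rw [Real.rpow_neg hk0.le]
    field_simp
  rw [e3]
  have h5 : 0 ≤ (64 * α / σ * 4) * (1 + Real.log (8 / σ)) := by positivity
  calc 2 * (32 * α) ^ γ * (64 * α / σ * 4) * (1 + Real.log (8 / σ))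
      = 2 * (32 * α) ^ γ * ((64 * α / σ * 4) * (1 + Real.log (8 / σ))) := by ring
    _ ≤ 2 * (64 * α) * ((64 * α / σ * 4) * (1 + Real.log (8 / σ))) := by
        apply mul_le_mul_of_nonneg_right _ h5
        linarith
    _ = (65536 * 2 * (α ^ 2 / σ) * (1 + Real.log (8 / σ))) / 4 := by
        field_simp
        ring
    _ ≤ 1 / 2 := by linarith

end

end Pool.Agent.H96.Cop
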