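import Mathlib
import Pool.Agent.H95.Cop.Limit
import Pool.Agent.H96.Cop.Sum3

/-!
# From the fractional moment criterion to the critical curve
-/

open MeasureTheory ProbabilityTheory Filter Topology
open scoped ENNReal

namespace Pool.Agent.H96.Cop

open Pool.Agent.H95 Pool.Agent.H95.Cop

variable (μ : Measure ℝ) [IsProbabilityMeasure μ]

/-- law of one total charge -/
noncomputable def chargeLaw (lam h : ℝ) : Measure ℝ := μ.map (fun z => -2 * lam * (z + h))

instance (lam h : ℝ) : IsProbabilityMeasure (chargeLaw μ lam h) := by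
  unfold chargeLaw
  exact Measure.isProbabilityMeasure_map (by fun_prop)

lemma map_ch (lam h : ℝ) : (iid μ).map (ch lam h) = iid (chargeLaw μ lam h) :=
  Measure.infinitePi_map_pi (μ := fun _ : ℕ => μ) (f := fun _ z => -2 * lam * (z + h))
    (fun _ => by fun_prop)

lemma measurable_ch (lam h : ℝ) : Measurable (ch lam h) := by
  refine measurable_pi_lambda _ (fun i => ?_)
  unfold ch
  fun_prop

lemma Mo_eq (hexp : ∀ t : ℝ, Integrable (fun z => Real.exp (t * z)) μ) (lam h γ : ℝ) :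
    Mo (chargeLaw μ lam h) γ = ENNReal.ofReal (Real.exp (LM μ (-(2 * lam * γ)) - 2 * lam * γ * h)) := by
  unfold Mo chargeLaw
  have hm : Measurable (fun z : ℝ => (ENNReal.ofReal (Real.exp z)) ^ γ) :=
    (ENNReal.measurable_ofReal.comp Real.measurable_exp).pow_const γ
  rw [lintegral_map hm (by fun_prop)]
  have e1 : ∀ z : ℝ, (ENNReal.ofReal (Real.exp (-2 * lam * (z + h)))) ^ γ =
      ENNReal.ofReal (Real.exp (-(2 * lam * γ) * z) * Real.exp (-(2 * lam * γ * h))) := by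
    intro z
    rw [ENNReal.ofReal_rpow_of_pos (Real.exp_pos _), ← Real.exp_mul, ← Real.exp_add]
    congr 2
    ring
  rw [lintegral_congr e1, ← ofReal_integral_eq_lintegral_ofReal ((hexp _).mul_const _)
    (Filter.Eventually.of_forall (fun z => by positivity)), integral_mul_const,
    ← exp_LM μ hexp, ← Real.exp_add]
  congr 2

lemma Wn_le_Psi (K : PMF ℕ) (k : ℕ) (hk : 1 ≤ k) (n : ℕ) (x : ℕ → ℝ) :
    Wn K (n * k) x ≤ Psi K k n x := by
  unfold Psi
  have h0 : 0 ∈ Finset.range k := Finset.mem_range.mpr (by omega)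
  have h1 : ex 0 0 x * Wn K (n * k - 0) (shift 0 x) = Wn K (n * k) x := by
    rw [shift_zero, Nat.sub_zero]
    unfold ex H
    simp
  rw [← h1]
  exact Finset.single_le_sum (f := fun e => ex 0 e x * Wn K (n * k - e) (shift e x))
    (fun i _ => zero_le) h0

lemma integrable_log_ch' (K : PMF ℕ) (hid : Integrable (fun z : ℝ => z) μ) (lam h : ℝ) (N i : ℕ) :
    Integrable (fun ω => Real.log (W K N (shift i (ch lam h ω)))) (iid μ) := by
  have hfm : Measurable (fun z : ℝ => -2 * lam * (z + h)) := by fun_prop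
  have hfi : Integrable (fun z : ℝ => -2 * lam * (z + h)) μ := (hid.add (integrable_const h)).const_mul _
  have := integrable_logW μ K N i hfm hfi 0
  simp_rw [ch_eq_XX]
  exact this

/-- bound of the averaged logarithm from a bound of the fractional moment -/
lemma ee_le (K : PMF ℕ) (hid : Integrable (fun z : ℝ => z) μ) (lam h : ℝ) (γ : ℝ) (hγ : 0 < γ)
    (N : ℕ) (C : ℝ) (hC : 0 ≤ C)
    (hb : ∫⁻ x, (Wn K N x) ^ γ ∂(iid (chargeLaw μ lam h)) ≤ ENNReal.ofReal C) :
    ee μ K lam h N ≤ C / γ := by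
  rw [← map_ch μ lam h, lintegral_map ((measurable_Wn K N).pow_const γ) (measurable_ch lam h)] at hb
  have e1 : ∀ ω : ℕ → ℝ, (Wn K N (ch lam h ω)) ^ γ =
      ENNReal.ofReal ((W K N (ch lam h ω)) ^ γ) := by
    intro ω
    unfold Wn
    rw [ENNReal.ofReal_rpow_of_pos (W_pos K N _)]
  rw [lintegral_congr e1] at hb
  have hmeas : Measurable (fun ω : ℕ → ℝ => (W K N (ch lam h ω)) ^ γ) :=
    ((measurable_W K N).comp (measurable_ch lam h)).pow_const γ
  have hnn : ∀ ω : ℕ → ℝ, 0 ≤ (W K N (ch lam h ω)) ^ γ := fun ω => Real.rpow_nonneg (W_pos K N _).le _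
  have hint : Integrable (fun ω : ℕ → ℝ => (W K N (ch lam h ω)) ^ γ) (iid μ) := by
    refine ⟨hmeas.aestronglyMeasurable, ?_⟩
    rw [hasFiniteIntegral_iff_ofReal (Filter.Eventually.of_forall hnn)]
    exact lt_of_le_of_lt hb ENNReal.ofReal_lt_top
  have hle : ∫ ω, (W K N (ch lam h ω)) ^ γ ∂(iid μ) ≤ C := by
    rw [← ofReal_integral_eq_lintegral_ofReal hint (Filter.Eventually.of_forall hnn)] at hb
    exact (ENNReal.ofReal_le_ofReal_iff hC).mp hb
  have hlog := integrable_log_ch' μ K hid lam h N 0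
  simp only [shift_zero] at hlog
  have hpt : ∀ ω : ℕ → ℝ, Real.log (W K N (ch lam h ω)) ≤ (1 / γ) * (W K N (ch lam h ω)) ^ γ := by
    intro ω
    have hW := W_pos K N (ch lam h ω)
    have h1 := Real.log_le_sub_one_of_pos (Real.rpow_pos_of_pos hW γ)
    rw [Real.log_rpow hW] at h1
    rw [one_div, inv_mul_eq_div, le_div_iff₀ hγ]
    linarith
  unfold ee
  calc ∫ ω, Real.log (W K N (ch lam h ω)) ∂(iid μ)
      ≤ ∫ ω, (1 / γ) * (W K N (ch lam h ω)) ^ γ ∂(iid μ) :=
        integral_mono hlog (hint.const_mul _) hpt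
    _ = (1 / γ) * ∫ ω, (W K N (ch lam h ω)) ^ γ ∂(iid μ) := integral_const_mul _ _
    _ ≤ (1 / γ) * C := mul_le_mul_of_nonneg_left hle (by positivity)
    _ = C / γ := by ring

lemma finiteFreeEnergy_eq' (K : PMF ℕ) (hid : Integrable (fun z : ℝ => z) μ) (lam h : ℝ) (N : ℕ) :
    finiteFreeEnergy K μ lam h N = ee μ K lam h N / N := by
  unfold finiteFreeEnergy
  rw [one_div, inv_mul_eq_div]
  congr 1
  have h1 : ∀ ω : ℕ → ℝ, partitionFunction K lam h N ω = W K N (shift 1 (ch lam h ω)) := by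
    intro ω
    rw [partitionFunction_eq]
    rfl
  simp_rw [h1]
  have hg := integrable_log_ch' μ K hid lam h N 0
  simp only [shift_zero] at hg
  exact integral_comp_shift μ (t := 1) hg

lemma nonpos_of_bound (K : PMF ℕ) (hid : Integrable (fun z : ℝ => z) μ) (lam h : ℝ) (k : ℕ)
    (hk : 1 ≤ k) (C : ℝ) (hC : ∀ n : ℕ, 1 ≤ n → ee μ K lam h (n * k) ≤ C) (f : ℝ)
    (hf : HasFreeEnergy K μ lam h f) : f ≤ 0 := by
  have hk0 : (0:ℝ) < k := by exact_mod_cast hk
  have hsub : Tendsto (fun n : ℕ => n * k) atTop atTop :=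
    tendsto_id.atTop_mul_const' (by omega)
  have h1 : Tendsto (fun n : ℕ => finiteFreeEnergy K μ lam h (n * k)) atTop (𝓝 f) := hf.comp hsub
  have h2 : Tendsto (fun n : ℕ => (C / k) / (n : ℝ)) atTop (𝓝 0) :=
    tendsto_const_div_atTop_nhds_zero_nat _
  refine le_of_tendsto_of_tendsto h1 h2 ?_
  filter_upwards [eventually_ge_atTop 1] with n hn
  have hn0 : (0:ℝ) < n := by exact_mod_cast hn
  rw [finiteFreeEnergy_eq' μ K hid]
  push_cast
  rw [div_div, mul_comm (k : ℝ) (n : ℝ)]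
  exact div_le_div_of_nonneg_right (hC n hn) (by positivity)

/-- zero free energy from the fractional moment criterion -/
lemma free_nonpos {K : PMF ℕ} {α c σ ε b κ : ℝ} {n0 k : ℕ} (hg : Good K α c σ ε b κ n0 k)
    (hσ : 65536 * 2 * (α ^ 2 / σ) * (1 + Real.log (8 / σ)) ≤ 2)
    (hexp : ∀ t : ℝ, Integrable (fun z => Real.exp (t * z)) μ) (lam h : ℝ)
    (h1 : LM μ (-(2 * lam)) - 2 * lam * h ≤ b)
    (h2 : LM μ (-(2 * lam * gam α σ)) - 2 * lam * gam α σ * h ≤ -κ)
    (f : ℝ) (hf : HasFreeEnergy K μ lam h f) : f ≤ 0 := by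
  have hid := integrable_id' μ hexp
  have hα := hg.α0
  have hc := hg.c0
  have hσ0 := hg.σ0
  have hk0 : (0:ℝ) < k := by exact_mod_cast hg.k1
  have hγ0 := gam_pos hg
  have hγ1 := gam_lt_one hg
  set γ := gam α σ with hγ
  set Fr : ℝ := 2 * (32 * α * (k : ℝ) ^ (1 + α) / c) ^ γ * (64 * α / σ * 4) with hFr
  set Gr : ℝ := c ^ γ * (k : ℝ) ^ (-(1 + σ)) * (1 + Real.log (8 / σ)) with hGr
  have hlog : 0 ≤ Real.log (8 / σ) := Real.log_nonneg (by
    rw [le_div_iff₀ hσ0]; have := hg.σα; have := hg.α1; linarith)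
  have hFr0 : 0 ≤ Fr := by rw [hFr]; positivity
  have hGr0 : 0 ≤ Gr := by rw [hGr]; positivity
  have hB1 : (1 : ℝ≥0∞) ≤ ENNReal.ofReal (Real.exp b) := by
    rw [ENNReal.one_le_ofReal]
    exact Real.one_le_exp hg.b0
  have hB : Mo (chargeLaw μ lam h) 1 ≤ ENNReal.ofReal (Real.exp b) := by
    rw [Mo_eq μ hexp]
    apply ENNReal.ofReal_le_ofReal
    apply Real.exp_le_exp.mpr
    rw [mul_one]
    exact h1
  have hθ : Mo (chargeLaw μ lam h) γ ≤ ENNReal.ofReal (Real.exp (-κ)) := by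
    rw [Mo_eq μ hexp]
    apply ENNReal.ofReal_le_ofReal
    exact Real.exp_le_exp.mpr h2
  have hθ1 : ENNReal.ofReal (Real.exp (-κ)) ≤ 1 := by
    rw [ENNReal.ofReal_le_one]
    exact Real.exp_le_one_iff.mpr (by have := hg.κ0; linarith)
  have hFΓ : ENNReal.ofReal Fr * ENNReal.ofReal Gr ≤ 2⁻¹ := by
    rw [← ENNReal.ofReal_mul hFr0]
    have h3 := prod_bound hg hσ
    rw [← hγ] at h3
    have e : (2⁻¹ : ℝ≥0∞) = ENNReal.ofReal (1 / 2) := by
      rw [one_div, ENNReal.ofReal_inv_of_pos (by norm_num)]; norm_num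
    rw [e]
    exact ENNReal.ofReal_le_ofReal h3
  have hmain := frac_bound (chargeLaw μ lam h) K k γ (ENNReal.ofReal (Real.exp b))
    (ENNReal.ofReal (Real.exp (-κ))) hg.K0 hg.k1 (fun j => ENNReal.ofReal (Gj c α k j))
    (fun j m hj hkm hjm => hG_of hg j m hj hkm hjm) hγ0 hγ1 hB1 hB hθ hθ1
    (ENNReal.ofReal Fr) (ENNReal.ofReal Gr) (fun n => sumF hg n) (fun n => sumG hg n) hFΓ
  have hC : ∀ n : ℕ, 1 ≤ n → ee μ K lam h (n * k) ≤ (4 * Fr) / γ := by
    intro n hn
    apply ee_le μ K hid lam h γ hγ0 (n * k) (4 * Fr) (by positivity)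
    calc ∫⁻ x, (Wn K (n * k) x) ^ γ ∂(iid (chargeLaw μ lam h))
        ≤ ∫⁻ x, (Psi K k n x) ^ γ ∂(iid (chargeLaw μ lam h)) :=
          lintegral_mono (fun x => ENNReal.rpow_le_rpow (Wn_le_Psi K k hg.k1 n x) hγ0.le)
      _ ≤ 4 * ENNReal.ofReal Fr := hmain n hn
      _ = ENNReal.ofReal (4 * Fr) := by
          have e4 : (4 : ℝ≥0∞) = ENNReal.ofReal 4 := by norm_num
          rw [e4, ← ENNReal.ofReal_mul (by norm_num)]
  exact nonpos_of_bound μ K hid lam h k hg.k1 _ hC f hf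

/-- annealed bound -/
lemma le_annealed (K : PMF ℕ) (hexp : ∀ t : ℝ, Integrable (fun z => Real.exp (t * z)) μ)
    (lam : ℝ) (hlam : 0 < lam) (h f : ℝ) (hpos : 0 < f) (hF : HasFreeEnergy K μ lam h f) :
    h ≤ LM μ (-(2 * lam)) / (2 * lam) := by
  have hid := integrable_id' μ hexp
  by_contra hcon
  push Not at hcon
  have hle : ∀ N : ℕ, finiteFreeEnergy K μ lam h N ≤ 0 := by
    intro N
    rw [finiteFreeEnergy_eq' μ K hid]
    apply div_nonpos_of_nonpos_of_nonneg _ (Nat.cast_nonneg N)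
    have hfm : Measurable (fun z : ℝ => -2 * lam * (z + h)) := by fun_prop
    have hfi : Integrable (fun z : ℝ => -2 * lam * (z + h)) μ :=
      (hid.add (integrable_const h)).const_mul _
    have e1 : ∀ z : ℝ, Real.exp (-2 * lam * (z + h)) =
        Real.exp (-(2 * lam) * z) * Real.exp (-(2 * lam * h)) := by
      intro z
      rw [← Real.exp_add]; congr 1; ring
    have hi : Integrable (fun z : ℝ => Real.exp (-2 * lam * (z + h))) μ := by
      simp_rw [e1]
      exact (hexp _).mul_const _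
    have h1 : ∫ z, Real.exp (-2 * lam * (z + h)) ∂μ ≤ 1 := by
      simp_rw [e1]
      rw [integral_mul_const, ← exp_LM μ hexp, ← Real.exp_add, Real.exp_le_one_iff]
      rw [div_lt_iff₀ (by positivity)] at hcon
      linarith
    have h2 := log_W_mean_nonpos μ K _ hfm hfi hi h1 N
    unfold ee
    simp_rw [ch_eq_XX]
    exact h2
  have := le_of_tendsto hF (Filter.Eventually.of_forall hle)
  linarith

end Pool.Agent.H96.Cop
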