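import Mathlib
import Pool.Agent.H96.Cop.Fin

/-!
# The upper bound of the slope
-/

open MeasureTheory ProbabilityTheory Filter Topology
open scoped ENNReal

namespace Pool.Agent.H96.Cop

open Pool.Agent.H95 Pool.Agent.H95.Cop

variable (μ : Measure ℝ) [IsProbabilityMeasure μ]

lemma LM_upper (hexp : ∀ t : ℝ, Integrable (fun z => Real.exp (t * z)) μ)
    (hmean : ∫ z, z ∂μ = 0) (hvar : ∫ z, z ^ 2 ∂μ = 1) (r δ : ℝ) (hr : 0 < r) (hδ : 0 < δ) :
    ∀ᶠ lam in 𝓝[>] (0:ℝ), LM μ (-(2 * lam * r)) ≤ (2 * r ^ 2 + δ) * lam ^ 2 := by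
  have h1 : Tendsto (fun lam : ℝ => -(2 * lam * r)) (𝓝[>] 0) (𝓝[≠] 0) := by
    rw [tendsto_nhdsWithin_iff]
    constructor
    · have : Tendsto (fun lam : ℝ => -(2 * lam * r)) (𝓝 0) (𝓝 (-(2 * 0 * r))) := by
        apply Continuous.tendsto
        fun_prop
      simp only [mul_zero, zero_mul, neg_zero] at this
      exact this.mono_left nhdsWithin_le_nhds
    · filter_upwards [self_mem_nhdsWithin] with lam hlam
      have h0 : 0 < lam := hlam
      have : 0 < 2 * lam * r := by positivity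
      simp only [Set.mem_compl_iff, Set.mem_singleton_iff, neg_eq_zero]
      exact this.ne'
  have h2 := (LM_tendsto μ hexp hmean hvar).comp h1
  have h3 : (1:ℝ) / 2 < 1 / 2 + δ / (4 * r ^ 2) := by
    have : 0 < δ / (4 * r ^ 2) := by positivity
    linarith
  filter_upwards [h2.eventually (gt_mem_nhds h3), self_mem_nhdsWithin] with lam hl hlam
  have h0 : 0 < lam := hlam
  simp only [Function.comp_apply] at hl
  have h4 : 0 < (-(2 * lam * r)) ^ 2 := by
    have : 0 < 2 * lam * r := by positivity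
    rw [neg_sq]; positivity
  rw [div_lt_iff₀ h4] at hl
  have e : (1 / 2 + δ / (4 * r ^ 2)) * (-(2 * lam * r)) ^ 2 = (2 * r ^ 2 + δ) * lam ^ 2 := by
    field_simp
    ring
  rw [e] at hl
  exact hl.le

lemma exists_n0 (K : PMF ℕ) (α cK : ℝ) (hcK : 0 < cK)
    (hK : Tendsto (fun n : ℕ => (K n).toReal * (n : ℝ) ^ (1 + α)) atTop (𝓝 cK)) :
    ∃ n0 : ℕ, (∀ n : ℕ, n0 ≤ n → cK / 2 * (n : ℝ) ^ (-(1 + α)) ≤ kk K n) ∧
      (∀ n : ℕ, n0 ≤ n → kk K n ≤ 2 * cK * (n : ℝ) ^ (-(1 + α))) := by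
  have h1 : ∀ᶠ n : ℕ in atTop, cK / 2 < (K n).toReal * (n : ℝ) ^ (1 + α) :=
    hK.eventually (lt_mem_nhds (by linarith))
  have h2 : ∀ᶠ n : ℕ in atTop, (K n).toReal * (n : ℝ) ^ (1 + α) < 2 * cK :=
    hK.eventually (gt_mem_nhds (by linarith))
  obtain ⟨n1, hn1⟩ := eventually_atTop.mp (h1.and h2)
  refine ⟨max n1 1, fun n hn => ?_, fun n hn => ?_⟩
  · have hn0 : (0 : ℝ) < n := by
      have : 1 ≤ n := (le_max_right _ _).trans hn
      exact_mod_cast this
    have h2 : 0 < (n : ℝ) ^ (1 + α) := Real.rpow_pos_of_pos hn0 _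
    rw [Real.rpow_neg hn0.le, ← div_eq_mul_inv, div_le_iff₀ h2]
    exact (hn1 n ((le_max_left _ _).trans hn)).1.le
  · have hn0 : (0 : ℝ) < n := by
      have : 1 ≤ n := (le_max_right _ _).trans hn
      exact_mod_cast this
    have h2 : 0 < (n : ℝ) ^ (1 + α) := Real.rpow_pos_of_pos hn0 _
    rw [Real.rpow_neg hn0.le, ← div_eq_mul_inv, le_div_iff₀ h2]
    exact (hn1 n ((le_max_left _ _).trans hn)).2.le

/-- cell length -/
noncomputable def cl (lam : ℝ) : ℕ := ⌈(lam ^ 2)⁻¹⌉₊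

lemma cl_tendsto : Tendsto cl (𝓝[>] (0:ℝ)) atTop := by
  unfold cl
  apply tendsto_nat_ceil_atTop.comp
  apply tendsto_inv_nhdsGT_zero.comp
  rw [tendsto_nhdsWithin_iff]
  constructor
  · have : Tendsto (fun lam : ℝ => lam ^ 2) (𝓝 0) (𝓝 (0 ^ 2)) := (continuous_pow 2).tendsto 0
    simp only [ne_eq, OfNat.ofNat_ne_zero, not_false_eq_true, zero_pow] at this
    exact this.mono_left nhdsWithin_le_nhds
  · filter_upwards [self_mem_nhdsWithin] with lam hlam
    have h0 : 0 < lam := hlam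
    exact pow_pos h0 2

lemma cl_low {lam : ℝ} (hlam : 0 < lam) : 1 ≤ lam ^ 2 * cl lam := by
  have h1 := Nat.le_ceil ((lam ^ 2)⁻¹)
  have h2 : 0 < lam ^ 2 := pow_pos hlam 2
  unfold cl
  calc (1:ℝ) = lam ^ 2 * (lam ^ 2)⁻¹ := (mul_inv_cancel₀ h2.ne').symm
    _ ≤ _ := mul_le_mul_of_nonneg_left h1 h2.le

lemma cl_up {lam : ℝ} (hlam : 0 < lam) : lam ^ 2 * cl lam ≤ 1 + lam ^ 2 := by
  have h2 : 0 < lam ^ 2 := pow_pos hlam 2
  have h1 := (Nat.ceil_lt_add_one (inv_nonneg.mpr h2.le) : ((⌈(lam ^ 2)⁻¹⌉₊ : ℕ) : ℝ) < (lam ^ 2)⁻¹ + 1)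
  unfold cl
  calc lam ^ 2 * ((⌈(lam ^ 2)⁻¹⌉₊ : ℕ) : ℝ) ≤ lam ^ 2 * ((lam ^ 2)⁻¹ + 1) :=
        mul_le_mul_of_nonneg_left h1.le h2.le
    _ = 1 + lam ^ 2 := by rw [mul_add, mul_inv_cancel₀ h2.ne', mul_one]

/-- main case -/
lemma main_case (α σ : ℝ) (hα : 0 < α) (hα1 : α ≤ 1 / 40) (hσα : σ ≤ α / 2) (hσα2 : α ^ 2 ≤ σ)
    (hσ : 65536 * 2 * (α ^ 2 / σ) * (1 + Real.log (8 / σ)) ≤ 2)
    (K : PMF ℕ) (hK0 : K 0 = 0) (cK : ℝ) (hcK : 0 < cK)
    (hK : Tendsto (fun n : ℕ => (K n).toReal * (n : ℝ) ^ (1 + α)) atTop (𝓝 cK))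
    (hexp : ∀ t : ℝ, Integrable (fun z => Real.exp (t * z)) μ)
    (hmean : ∫ z, z ∂μ = 0) (hvar : ∫ z, z ^ 2 ∂μ = 1) :
    ∀ᶠ lam in 𝓝[>] (0:ℝ), criticalCurve K μ lam / lam ≤ (1 + 2 * σ) / (1 + α) := by
  have hσ0 : 0 < σ := lt_of_lt_of_le (by positivity) hσα2
  obtain ⟨n0, hlow, hup⟩ := exists_n0 K α cK hcK hK
  have hγ0 : 0 < gam α σ := by unfold gam; positivity
  have e1 := LM_upper μ hexp hmean hvar 1 (α / 2) one_pos (by positivity)
  have e2 := LM_upper μ hexp hmean hvar (gam α σ) (σ / 4) hγ0 (by positivity)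
  have e3 : ∀ᶠ lam in 𝓝[>] (0:ℝ), n0 ≤ cl lam := cl_tendsto.eventually (eventually_ge_atTop n0)
  have e3' : ∀ᶠ lam in 𝓝[>] (0:ℝ), 1 ≤ cl lam := cl_tendsto.eventually (eventually_ge_atTop 1)
  have e4 : ∀ᶠ lam in 𝓝[>] (0:ℝ), (n0 : ℝ) ≤ cK * ((cl lam : ℕ) : ℝ) ^ (1 - α) := by
    have h1 : Tendsto (fun n : ℕ => cK * ((n : ℕ) : ℝ) ^ (1 - α)) atTop atTop :=
      ((tendsto_rpow_atTop (by linarith : 0 < 1 - α)).comp tendsto_natCast_atTop_atTop).const_mul_atTop
        hcK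
    exact cl_tendsto.eventually (h1.eventually (eventually_ge_atTop (n0 : ℝ)))
  have e5 : ∀ᶠ lam in 𝓝[>] (0:ℝ), lam < 2 / 5 := by
    have : ∀ᶠ lam in 𝓝 (0:ℝ), lam < 2 / 5 := gt_mem_nhds (by norm_num)
    exact this.filter_mono nhdsWithin_le_nhds
  filter_upwards [e1, e2, e3, e3', e4, e5, self_mem_nhdsWithin] with lam g1 g2 g3 g3' g4 g5 hlam
  have h0 : 0 < lam := hlam
  have hl2 : 0 < lam ^ 2 := pow_pos h0 2
  have hlam2 : lam ^ 2 ≤ 1 / 5 := by nlinarith
  set k := cl lam with hk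
  have hk1 := cl_low h0
  have hk2 := cl_up h0
  rw [← hk] at hk1 hk2
  set β := α - σ / 2 with hβ
  have hβ0 : 0 < β := by rw [hβ]; linarith
  set ε : ℝ := (σ / (64 * α)) ^ (1 / β) with hε
  have hbase : 0 < σ / (64 * α) := by positivity
  have hbase1 : σ / (64 * α) ≤ 1 := by
    rw [div_le_one (by positivity)]; linarith
  have hg : Good K α cK σ ε (5 / 2 * α * lam ^ 2) (σ / 4 * lam ^ 2) n0 k :=
    { K0 := hK0
      α0 := hα
      α1 := hα1
      c0 := hcK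
      low := hlow
      up := hup
      k1 := g3'
      kn := g3
      kn' := g4
      σ0 := hσ0
      σα := hσα
      σα2 := hσα2
      ε0 := Real.rpow_pos_of_pos hbase _
      ε1 := Real.rpow_le_one hbase.le hbase1 (by positivity)
      εeq := by
        rw [hε, ← hβ, ← Real.rpow_mul hbase.le, one_div_mul_cancel hβ0.ne', Real.rpow_one]
      b0 := by positivity
      bk := by
        have e : 5 / 2 * α * lam ^ 2 * k = 5 / 2 * α * (lam ^ 2 * k) := by ring
        rw [e]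
        nlinarith
      κ0 := by positivity
      κk := by
        have e : σ / 4 * lam ^ 2 * k = σ / 4 * (lam ^ 2 * k) := by ring
        rw [e]
        nlinarith }
  rw [div_le_iff₀ h0]
  unfold criticalCurve
  apply Real.sSup_le
  · rintro h ⟨hh0, f, hf0, hf⟩
    by_contra hcon
    push Not at hcon
    have hle : (1 + 2 * σ) / (1 + α) * lam ≤ h := hcon.le
    have hd : (1 + 2 * σ) / (1 + α) = 1 - (α - 2 * σ) / (1 + α) := by field_simp; ring
    have hd2 : (α - 2 * σ) / (1 + α) ≤ α := by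
      rw [div_le_iff₀ (by positivity)]
      nlinarith
    have h1 : LM μ (-(2 * lam)) - 2 * lam * h ≤ 5 / 2 * α * lam ^ 2 := by
      rw [mul_one] at g1
      have h2 : 2 * lam * ((1 + 2 * σ) / (1 + α) * lam) ≤ 2 * lam * h :=
        mul_le_mul_of_nonneg_left hle (by positivity)
      rw [hd] at h2
      have h3 : 2 * lam * ((1 - α) * lam) ≤ 2 * lam * ((1 - (α - 2 * σ) / (1 + α)) * lam) := by
        gcongr
      nlinarith
    have h2 : LM μ (-(2 * lam * gam α σ)) - 2 * lam * gam α σ * h ≤ -(σ / 4 * lam ^ 2) := by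
      have h2 : 2 * lam * gam α σ * ((1 + 2 * σ) / (1 + α) * lam) ≤ 2 * lam * gam α σ * h :=
        mul_le_mul_of_nonneg_left hle (by positivity)
      have h3 : (1 + 2 * σ) / (1 + α) = gam α σ + σ / (1 + α) := by unfold gam; field_simp; ring
      rw [h3] at h2
      have h4 : σ / 2 ≤ 2 * gam α σ * (σ / (1 + α)) := by
        unfold gam
        have e : 2 * ((1 + σ) / (1 + α)) * (σ / (1 + α)) = (2 * (1 + σ) / (1 + α) ^ 2) * σ := by
          field_simp
        rw [e]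
        have h5 : (1:ℝ) / 2 ≤ 2 * (1 + σ) / (1 + α) ^ 2 := by
          rw [div_le_div_iff₀ (by norm_num) (by positivity)]
          nlinarith
        nlinarith
      have h5 : σ / 2 * lam ^ 2 ≤ 2 * gam α σ * (σ / (1 + α)) * lam ^ 2 :=
        mul_le_mul_of_nonneg_right h4 hl2.le
      nlinarith
    have h3 := free_nonpos μ hg hσ hexp lam h h1 h2 f hf
    linarith
  · positivity

theorem slope_le (α : ℝ) (hα : 0 < α) (hα1 : α < 1) (K : PMF ℕ) (hK0 : K 0 = 0) (cK : ℝ)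
    (hcK : 0 < cK)
    (hK : Tendsto (fun n : ℕ => (K n).toReal * (n : ℝ) ^ (1 + α)) atTop (𝓝 cK))
    (hexp : ∀ t : ℝ, Integrable (fun z => Real.exp (t * z)) μ)
    (hmean : ∫ z, z ∂μ = 0) (hvar : ∫ z, z ^ 2 ∂μ = 1) :
    ∀ᶠ lam in 𝓝[>] (0:ℝ), criticalCurve K μ lam / lam ≤
      1 / (1 + α) + 2 ^ 18 * α ^ 2 * (1 + Real.log (1 / α)) := by
  set ℓ : ℝ := 1 + Real.log (1 / α) with hℓ
  have hlog : 0 ≤ Real.log (1 / α) := Real.log_nonneg (by rw [le_div_iff₀ hα]; linarith)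
  have hℓ1 : 1 ≤ ℓ := by rw [hℓ]; linarith
  set σ : ℝ := 2 ^ 17 * α ^ 2 * ℓ with hσd
  have hα2 : 0 < α ^ 2 := by positivity
  have hσ8 : 2 ^ 17 * α ^ 2 ≤ σ := by rw [hσd]; nlinarith
  have hσ0 : 0 < σ := lt_of_lt_of_le (by positivity) hσ8
  have hval : 1 / (1 + α) + 2 ^ 18 * α ^ 2 * ℓ = 1 / (1 + α) + 2 * σ := by rw [hσd]; ring
  rw [hval]
  rcases le_or_gt (α / 2) σ with hcase | hcase
  · -- annealed bound
    set δ : ℝ := 1 / (1 + α) + α - 1 with hδ
    have hδ0 : 0 < δ := by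
      have : δ = α ^ 2 / (1 + α) := by rw [hδ]; field_simp; ring
      rw [this]; positivity
    have e1 := LM_upper μ hexp hmean hvar 1 (2 * δ) one_pos (by positivity)
    filter_upwards [e1, self_mem_nhdsWithin] with lam g1 hlam
    have h0 : 0 < lam := hlam
    rw [mul_one] at g1
    rw [div_le_iff₀ h0]
    unfold criticalCurve
    apply Real.sSup_le
    · rintro h ⟨hh0, f, hf0, hf⟩
      refine (le_annealed μ K hexp lam h0 h f hf0 hf).trans ?_
      rw [div_le_iff₀ (by positivity)]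
      refine g1.trans ?_
      have h1 : 1 + δ ≤ 1 / (1 + α) + 2 * σ := by rw [hδ]; linarith
      have h2 : 0 < lam ^ 2 := by positivity
      nlinarith [mul_le_mul_of_nonneg_right h1 h2.le]
    · positivity
  · have hα40 : α ≤ 1 / 40 := by
      have h1 : 2 ^ 17 * α ^ 2 < α / 2 := lt_of_le_of_lt hσ8 hcase
      have h2 : 2 ^ 17 * α * α < 1 / 2 * α := by nlinarith
      have h3 := lt_of_mul_lt_mul_right h2 hα.le
      linarith
    have hcond : 65536 * 2 * (α ^ 2 / σ) * (1 + Real.log (8 / σ)) ≤ 2 := by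
      have h1 : 65536 * 2 * (α ^ 2 / σ) = 1 / ℓ := by
        rw [hσd]
        have : ℓ ≠ 0 := by linarith
        field_simp
        norm_num
      rw [h1]
      have h2 : Real.log (8 / σ) ≤ 2 * Real.log (1 / α) := by
        have h3 : 8 / σ ≤ (1 / α) ^ 2 := by
          rw [div_pow, one_pow, div_le_div_iff₀ hσ0 hα2]
          nlinarith
        have h4 := Real.log_le_log (by positivity) h3
        rw [Real.log_pow] at h4
        push_cast at h4
        exact h4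
      have h3 : 1 + Real.log (8 / σ) ≤ 2 * ℓ := by rw [hℓ]; linarith
      rw [one_div, inv_mul_eq_div, div_le_iff₀ (by linarith)]
      exact h3
    have hm := main_case μ α σ hα hα40 hcase.le (by nlinarith) hcond K hK0 cK hcK hK hexp hmean hvar
    filter_upwards [hm] with lam hl
    refine hl.trans ?_
    have : (1 + 2 * σ) / (1 + α) ≤ 1 / (1 + α) + 2 * σ := by
      rw [add_div]
      have : 2 * σ / (1 + α) ≤ 2 * σ := div_le_self (by linarith) (by linarith)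
      linarith
    exact this

end Pool.Agent.H96.Cop
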